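import Pool.Agent.H185.FD.Seq
import Pool.Agent.H185.TC.Circle

/-!
# Analytic families
-/

open Set Filter Topology Complex
open scoped ContDiff Real

namespace Pool.Agent.H185.FD

open Pool.Agent.H719R2.PIB

/-- the value of the power series -/
noncomputable def ser (b : ℕ → ℝ → ℝ) (τ Θ : ℝ) : ℝ := ∑' k, τ ^ k * b k Θ

/-- `m + Re (η e^{iΘ} + ζ e^{2iΘ})` -/
noncomputable def low (m : ℝ) (η ζ : ℂ) (Θ : ℝ) : ℝ :=
  m + (η * exp (Θ * I) + ζ * exp (Θ * I) ^ 2).re

/-- its derivative -/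
noncomputable def lowd (η ζ : ℂ) (Θ : ℝ) : ℝ := -(η * exp (Θ * I) + 2 * (ζ * exp (Θ * I) ^ 2)).im

lemma low_hasDerivAt (m : ℝ) (η ζ : ℂ) (Θ : ℝ) : HasDerivAt (low m η ζ) (lowd η ζ Θ) Θ := by
  have hE : HasDerivAt (fun θ : ℝ => exp (θ * I)) (exp (Θ * I) * I) Θ := by
    have h1 : HasDerivAt (fun θ : ℝ => ((θ : ℂ) * I)) (1 * I) Θ :=
      (HasDerivAt.ofReal_comp (hasDerivAt_id Θ)).mul_const I
    have := h1.cexp
    rw [one_mul] at this
    exact this
  have h2 := (hE.const_mul η).add ((hE.pow 2).const_mul ζ)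
  have h3 := (reCLM.hasFDerivAt (x := η * exp (Θ * I) + ζ * exp (Θ * I) ^ 2)).comp_hasDerivAt Θ h2
  have h4 := h3.const_add m
  refine h4.congr_deriv ?_
  unfold lowd
  rw [reCLM_apply]
  simp only [add_re, add_im, mul_re, mul_im, I_re, I_im, pow_two, re_ofNat, im_ofNat,
    Nat.cast_ofNat, pow_one, Nat.add_one_sub_one]
  ring

lemma vP_eq {m : ℝ} (hm : m ≠ 0) (η ζ : ℂ) (Θ : ℝ) :
    vP (η / m) (ζ / m) Θ = -lowd η ζ Θ / low m η ζ Θ := by
  unfold vP lowd low PP
  have hmc : (m : ℂ) ≠ 0 := by exact_mod_cast hm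
  have e1 : η / m * exp (Θ * I) + ζ / m * exp (Θ * I) ^ 2 =
      ((m⁻¹ : ℝ) : ℂ) * (η * exp (Θ * I) + ζ * exp (Θ * I) ^ 2) := by
    push_cast; field_simp
  have e2 : η / m * exp (Θ * I) + 2 * (ζ / m * exp (Θ * I) ^ 2) =
      ((m⁻¹ : ℝ) : ℂ) * (η * exp (Θ * I) + 2 * (ζ * exp (Θ * I) ^ 2)) := by
    push_cast; field_simp
  rw [e1, e2, re_ofReal_mul, im_ofReal_mul, neg_neg]
  set a := (η * exp (Θ * I) + ζ * exp (Θ * I) ^ 2).re
  set b := (η * exp (Θ * I) + 2 * (ζ * exp (Θ * I) ^ 2)).im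
  have e3 : 1 + m⁻¹ * a = m⁻¹ * (m + a) := by field_simp
  rw [e3, mul_div_mul_left _ _ (inv_ne_zero hm)]

/-- tail estimate -/
lemma tail {a : ℕ → ℝ} {C r τ : ℝ} (hr : 0 < r) (ha : ∀ k, |a k| * r ^ k ≤ C) (h0 : 0 ≤ τ)
    (h1 : τ < r) : Summable (fun k => τ ^ k * a k) := by
  have hg : Summable (fun k : ℕ => C * (τ / r) ^ k) :=
    (summable_geometric_of_lt_one (by positivity) ((div_lt_one hr).2 h1)).mul_left C
  refine Summable.of_norm_bounded hg fun k => ?_
  rw [Real.norm_eq_abs, abs_mul, abs_of_nonneg (pow_nonneg h0 k), div_pow, mul_div_assoc',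
    le_div_iff₀ (by positivity)]
  have := mul_le_mul_of_nonneg_left (ha k) (pow_nonneg h0 k)
  linarith

lemma tail_bound {a : ℕ → ℝ} {C r τ : ℝ} (hr : 0 < r) (ha : ∀ k, |a k| * r ^ k ≤ C) (h0 : 0 ≤ τ)
    (h1 : τ ≤ r / 2) (n : ℕ) :
    |∑' k, τ ^ k * a k - ∑ k ∈ Finset.range n, τ ^ k * a k| ≤ 2 * C * (τ / r) ^ n := by
  have hs := tail hr ha h0 (by linarith)
  rw [← hs.sum_add_tsum_nat_add n, add_sub_cancel_left]
  have hρ0 : 0 ≤ τ / r := by positivity
  have hρ : τ / r ≤ 1 / 2 := by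
    rw [div_le_iff₀ hr]; linarith
  have hC : 0 ≤ C := by
    have := ha 0
    rw [pow_zero, mul_one] at this
    exact (abs_nonneg _).trans this
  have hgeo : HasSum (fun k : ℕ => C * (τ / r) ^ n * (τ / r) ^ k)
      (C * (τ / r) ^ n * (1 - τ / r)⁻¹) :=
    (hasSum_geometric_of_lt_one hρ0 (by linarith)).mul_left _
  have h2 := tsum_of_norm_bounded (f := fun k => τ ^ (k + n) * a (k + n)) hgeo (fun k => by
    rw [Real.norm_eq_abs, abs_mul, abs_of_nonneg (pow_nonneg h0 _), mul_assoc, ← pow_add,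
      div_pow, mul_div_assoc', le_div_iff₀ (by positivity), add_comm n k]
    have := mul_le_mul_of_nonneg_left (ha (k + n)) (pow_nonneg h0 (k + n))
    linarith)
  rw [Real.norm_eq_abs] at h2
  refine h2.trans ?_
  have h3 : (1 - τ / r)⁻¹ ≤ 2 := by
    rw [inv_le_comm₀ (by linarith) (by norm_num)]
    linarith
  have h4 : 0 ≤ C * (τ / r) ^ n := by positivity
  nlinarith

section family

variable {b b' : ℕ → ℝ → ℝ} {C r R : ℝ} {τ : ℕ → ℝ} {Y : ℕ → ℂ → ℝ}

/-- the uniform limit of the normalised difference -/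
lemma main_limit {k : ℕ} (hk : 1 ≤ k) (hr : 0 < r)
    (hb : ∀ i Θ, |b i Θ| * r ^ i ≤ C) (hb' : ∀ i Θ, |b' i Θ| * r ^ i ≤ C)
    (hb0 : ∀ Θ, b 0 Θ = 1) (hb0' : ∀ Θ, b' 0 Θ = 0) (hτ : ∀ n, 0 < τ n)
    (hτ0 : Tendsto τ atTop (𝓝 0)) :
    TendstoUniformly (fun n Θ => (-ser b' (τ n) Θ / ser b (τ n) Θ -
      -(∑ i ∈ Finset.range k, τ n ^ i * b' i Θ) / (∑ i ∈ Finset.range k, τ n ^ i * b i Θ)) /
        τ n ^ k) (fun Θ => -b' k Θ) atTop ∧
    TendstoUniformly (fun n Θ => -ser b' (τ n) Θ / ser b (τ n) Θ) (fun _ => 0) atTop := by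
  have hC : 0 ≤ C := by
    have := hb 0 0
    rw [pow_zero, mul_one] at this
    exact (abs_nonneg _).trans this
  have hρ0 : Tendsto (fun n => τ n / r) atTop (𝓝 0) := by
    have := hτ0.div_const r
    rwa [zero_div] at this
  have hsm1 : ∀ᶠ n in atTop, τ n / r < 1 / 2 := hρ0.eventually_lt_const (by norm_num)
  have hsm2 : ∀ᶠ n in atTop, 4 * C * (τ n / r) < 1 / 2 := by
    have := hρ0.const_mul (4 * C)
    rw [mul_zero] at this
    exact this.eventually_lt_const (by norm_num)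
  -- basic estimates
  have hest : ∀ᶠ n in atTop, ∀ Θ, |ser b (τ n) Θ - 1| ≤ 2 * C * (τ n / r) ∧
      |ser b' (τ n) Θ| ≤ 2 * C * (τ n / r) ∧ 1 / 2 ≤ ser b (τ n) Θ := by
    filter_upwards [hsm1, hsm2] with n h1 h2 Θ
    have hτn : τ n ≤ r / 2 := by
      rw [div_lt_iff₀ hr] at h1
      linarith
    have h3 := tail_bound hr (fun i => hb i Θ) (hτ n).le hτn 1
    have h4 := tail_bound hr (fun i => hb' i Θ) (hτ n).le hτn 1
    rw [Finset.sum_range_one, pow_zero, one_mul, pow_one] at h3 h4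
    rw [hb0] at h3
    rw [hb0', sub_zero] at h4
    refine ⟨h3, h4, ?_⟩
    have h5 := (abs_le.1 h3).1
    have h6 : 0 ≤ C * (τ n / r) := mul_nonneg hC (div_nonneg (hτ n).le hr.le)
    unfold ser
    linarith
  constructor
  · rw [Metric.tendstoUniformly_iff]
    intro e he
    have hK : Tendsto (fun n => (4 * (11 * C ^ 2 + 3 * C) / r ^ k) * (τ n / r)) atTop (𝓝 0) := by
      have := hρ0.const_mul (4 * (11 * C ^ 2 + 3 * C) / r ^ k)
      rwa [mul_zero] at this
    filter_upwards [hsm1, hsm2, hest, hK.eventually_lt_const he] with n h1 h2 h3 h4 Θ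
    obtain ⟨h5, h6, h7⟩ := h3 Θ
    set ρ := τ n / r with hρ
    have hρpos : 0 < ρ := div_pos (hτ n) hr
    have hτn : τ n ≤ r / 2 := by
      rw [hρ, div_lt_iff₀ hr] at h1
      linarith
    have g1 := tail_bound hr (fun i => hb i Θ) (hτ n).le hτn k
    have g1' := tail_bound hr (fun i => hb' i Θ) (hτ n).le hτn k
    have g2' := tail_bound hr (fun i => hb' i Θ) (hτ n).le hτn (k + 1)
    rw [Finset.sum_range_succ] at g2'
    set W := ∑' i, τ n ^ i * b i Θ with hW
    set W' := ∑' i, τ n ^ i * b' i Θ with hW'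
    set P := ∑ i ∈ Finset.range k, τ n ^ i * b i Θ with hP
    set P' := ∑ i ∈ Finset.range k, τ n ^ i * b' i Θ with hP'
    have e1 : ser b (τ n) Θ = W := rfl
    have e2 : ser b' (τ n) Θ = W' := rfl
    rw [e1] at h5 h7
    rw [e2] at h6
    rw [← hρ] at g1 g1' g2'
    have hρk : ρ ^ k ≤ ρ := by
      calc ρ ^ k ≤ ρ ^ 1 := pow_le_pow_of_le_one hρpos.le (by linarith) hk
        _ = ρ := pow_one ρ
    have hCρ : 0 ≤ C * ρ := mul_nonneg hC hρpos.le
    have hCk : C * ρ ^ k ≤ C * ρ := mul_le_mul_of_nonneg_left hρk hC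
    have hP1 : |P - 1| ≤ 4 * C * ρ := by
      have : P - 1 = (W - 1) - (W - P) := by ring
      rw [this]
      refine (abs_sub _ _).trans ?_
      linarith
    have hP1' : |P'| ≤ 4 * C * ρ := by
      have : P' = W' - (W' - P') := by ring
      rw [this]
      refine (abs_sub _ _).trans ?_
      linarith
    have hPlo : 1 / 2 ≤ P := by
      have := (abs_le.1 hP1).1
      linarith
    have hPhi : |P| ≤ 3 / 2 := by
      rw [abs_of_nonneg (by linarith)]
      have := (abs_le.1 hP1).2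
      linarith
    have hbk : τ n ^ k * |b' k Θ| ≤ C * ρ ^ k := by
      have := hb' k Θ
      rw [hρ, div_pow, mul_div_assoc', le_div_iff₀ (by positivity)]
      have := mul_le_mul_of_nonneg_left this (pow_nonneg (hτ n).le k)
      linarith
    rw [e1, e2, Real.dist_eq]
    have hτk : 0 < τ n ^ k := pow_pos (hτ n) k
    have hWne : W ≠ 0 := by linarith
    have hPne : P ≠ 0 := by linarith
    have key : -b' k Θ - (-W' / W - -P' / P) / τ n ^ k =
        -(P' * (W - P) - (W' - (P' + τ n ^ k * b' k Θ)) * P + τ n ^ k * b' k Θ * P * (W - 1)) /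
          (τ n ^ k * (W * P)) := by
      field_simp
      ring
    rw [key, abs_div, abs_neg, abs_of_pos (show 0 < τ n ^ k * (W * P) by positivity)]
    have hnum : |P' * (W - P) - (W' - (P' + τ n ^ k * b' k Θ)) * P +
        τ n ^ k * b' k Θ * P * (W - 1)| ≤ (11 * C ^ 2 + 3 * C) * ρ ^ (k + 1) := by
      have a1 : |P' * (W - P)| ≤ 4 * C * ρ * (2 * C * ρ ^ k) := by
        rw [abs_mul]
        exact mul_le_mul hP1' g1 (abs_nonneg _) (by positivity)
      have a2 : |(W' - (P' + τ n ^ k * b' k Θ)) * P| ≤ 2 * C * ρ ^ (k + 1) * (3 / 2) := by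
        rw [abs_mul]
        exact mul_le_mul g2' hPhi (abs_nonneg _) (by positivity)
      have a3 : |τ n ^ k * b' k Θ * P * (W - 1)| ≤ C * ρ ^ k * (3 / 2) * (2 * C * ρ) := by
        rw [abs_mul, abs_mul, abs_mul, abs_of_pos hτk]
        exact mul_le_mul (mul_le_mul hbk hPhi (abs_nonneg _) (by positivity)) h5 (abs_nonneg _)
          (by positivity)
      refine (abs_add_le _ _).trans ?_
      have a4 := (abs_sub (P' * (W - P)) ((W' - (P' + τ n ^ k * b' k Θ)) * P))
      have a5 : ρ ^ (k + 1) = ρ ^ k * ρ := pow_succ ρ k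
      rw [a5] at a2 ⊢
      have a6 : 4 * C * ρ * (2 * C * ρ ^ k) + 2 * C * (ρ ^ k * ρ) * (3 / 2) +
          C * ρ ^ k * (3 / 2) * (2 * C * ρ) = (11 * C ^ 2 + 3 * C) * (ρ ^ k * ρ) := by ring
      linarith
    have hden : τ n ^ k * (1 / 4) ≤ τ n ^ k * (W * P) := by
      refine mul_le_mul_of_nonneg_left ?_ hτk.le
      nlinarith
    refine lt_of_le_of_lt (div_le_div₀ (by positivity) hnum (by positivity) hden) ?_
    have e3 : (11 * C ^ 2 + 3 * C) * ρ ^ (k + 1) / (τ n ^ k * (1 / 4)) =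
        4 * (11 * C ^ 2 + 3 * C) / r ^ k * ρ := by
      have e4 : ρ ^ (k + 1) = τ n ^ k / r ^ k * ρ := by
        rw [pow_succ, hρ, div_pow]
      rw [e4]
      field_simp
    rw [e3]
    exact h4
  · rw [Metric.tendstoUniformly_iff]
    intro e he
    have hK : Tendsto (fun n => 4 * C * (τ n / r)) atTop (𝓝 0) := by
      have := hρ0.const_mul (4 * C)
      rwa [mul_zero] at this
    filter_upwards [hest, hK.eventually_lt_const he] with n h3 h4 Θ
    obtain ⟨h5, h6, h7⟩ := h3 Θ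
    rw [Real.dist_eq, zero_sub, abs_neg, abs_div, abs_neg]
    rw [abs_of_pos (show 0 < ser b (τ n) Θ by linarith), div_lt_iff₀ (by linarith)]
    have h8 : 0 ≤ e := he.le
    nlinarith

/-- All coefficients are trigonometric polynomials of degree at most two. -/
theorem coefficients (hr : 0 < r) (hR2 : 2 < R)
    (hd : ∀ i Θ, HasDerivAt (b i) (b' i Θ) Θ)
    (hb : ∀ i Θ, |b i Θ| * r ^ i ≤ C) (hb' : ∀ i Θ, |b' i Θ| * r ^ i ≤ C)
    (hb0 : ∀ Θ, b 0 Θ = 1) (hτ : ∀ n, 0 < τ n) (hτ0 : Tendsto τ atTop (𝓝 0))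
    (hY : ∀ n, IsCollar (Y n)) (hR : ∀ n (z : ℂ), ‖z‖ ≤ R → Y n z ≤ 1)
    (H : ∀ n, HasInvolutions (Y n) (fun Θ => -ser b' (τ n) Θ / ser b (τ n) Θ)) (k : ℕ) :
    ∃ (m : ℝ) (η ζ : ℂ), (∀ Θ, b k Θ = low m η ζ Θ) ∧ (∀ Θ, b' k Θ = lowd η ζ Θ) ∧
      (k = 0 → m = 1 ∧ η = 0 ∧ ζ = 0) := by
  have hb0' : ∀ Θ, b' 0 Θ = 0 := by
    intro Θ
    have h1 := hd 0 Θ
    have h2 : b 0 = fun _ => 1 := funext hb0
    rw [h2] at h1
    exact h1.unique (hasDerivAt_const Θ (1 : ℝ))
  induction k using Nat.strong_induction_on with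
  | _ k ih =>
    rcases Nat.eq_zero_or_pos k with hk | hk
    · subst hk
      refine ⟨1, 0, 0, fun Θ => ?_, fun Θ => ?_, fun _ => ⟨rfl, rfl, rfl⟩⟩
      · rw [hb0]; simp [low]
      · rw [hb0']; simp [lowd]
    · have ih' : ∀ i : ℕ, ∃ (m : ℝ) (η ζ : ℂ), i < k → (∀ Θ, b i Θ = low m η ζ Θ) ∧
          (∀ Θ, b' i Θ = lowd η ζ Θ) ∧ (i = 0 → m = 1 ∧ η = 0 ∧ ζ = 0) := by
        intro i
        by_cases hi : i < k
        · obtain ⟨m, η, ζ, h⟩ := ih i hi
          exact ⟨m, η, ζ, fun _ => h⟩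
        · exact ⟨0, 0, 0, fun h => absurd h hi⟩
      choose m η ζ hrep using ih'
      obtain ⟨hlim, hv0⟩ := main_limit (τ := τ) hk hr hb hb' hb0 hb0' hτ hτ0
      obtain ⟨h01, h02, h03⟩ := (hrep 0 hk).2.2 rfl
      set M : ℕ → ℝ := fun n => ∑ i ∈ Finset.range k, τ n ^ i * m i with hM
      set E : ℕ → ℂ := fun n => ∑ i ∈ Finset.range k, ((τ n ^ i : ℝ) : ℂ) * η i with hE
      set Z : ℕ → ℂ := fun n => ∑ i ∈ Finset.range k, ((τ n ^ i : ℝ) : ℂ) * ζ i with hZ
      have hPlow : ∀ n Θ, ∑ i ∈ Finset.range k, τ n ^ i * b i Θ = low (M n) (E n) (Z n) Θ := by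
        intro n Θ
        unfold low
        simp only [hM, hE, hZ]
        rw [Finset.sum_mul, Finset.sum_mul, ← Finset.sum_add_distrib, Complex.re_sum,
          ← Finset.sum_add_distrib]
        refine Finset.sum_congr rfl fun i hi => ?_
        rw [(hrep i (Finset.mem_range.1 hi)).1 Θ]
        unfold low
        rw [mul_assoc, mul_assoc, ← mul_add, re_ofReal_mul]
        ring
      have hPlowd : ∀ n Θ, ∑ i ∈ Finset.range k, τ n ^ i * b' i Θ = lowd (E n) (Z n) Θ := by
        intro n Θ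
        unfold lowd
        simp only [hE, hZ]
        rw [Finset.sum_mul, Finset.sum_mul, Finset.mul_sum, ← Finset.sum_add_distrib,
          Complex.im_sum, ← Finset.sum_neg_distrib]
        refine Finset.sum_congr rfl fun i hi => ?_
        rw [(hrep i (Finset.mem_range.1 hi)).2.1 Θ]
        unfold lowd
        have e : ((τ n ^ i : ℝ) : ℂ) * η i * exp (Θ * I) +
            2 * (((τ n ^ i : ℝ) : ℂ) * ζ i * exp (Θ * I) ^ 2) =
            ((τ n ^ i : ℝ) : ℂ) * (η i * exp (Θ * I) + 2 * (ζ i * exp (Θ * I) ^ 2)) := by ring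
        rw [e, im_ofReal_mul]
        ring
      have hpow : ∀ i, i ≠ 0 → Tendsto (fun n => τ n ^ i) atTop (𝓝 0) := by
        intro i hi
        have := hτ0.pow i
        rwa [zero_pow hi] at this
      have hM1 : Tendsto M atTop (𝓝 1) := by
        have : Tendsto M atTop (𝓝 (∑ i ∈ Finset.range k, (if i = 0 then (1 : ℝ) else 0))) := by
          refine tendsto_finset_sum _ fun i hi => ?_
          split_ifs with h
          · subst h
            simp only [pow_zero, h01, mul_one]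
            exact tendsto_const_nhds
          · have := (hpow i h).mul_const (m i)
            rwa [zero_mul] at this
        have e : ∑ i ∈ Finset.range k, (if i = 0 then (1 : ℝ) else 0) = 1 := by
          rw [Finset.sum_ite_eq' (Finset.range k) 0 (fun _ => (1 : ℝ))]
          rw [if_pos (Finset.mem_range.2 hk)]
        rwa [e] at this
      have hcoef : ∀ (x : ℕ → ℂ), x 0 = 0 → Tendsto (fun n => ∑ i ∈ Finset.range k,
          ((τ n ^ i : ℝ) : ℂ) * x i) atTop (𝓝 0) := by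
        intro x hx
        have : Tendsto (fun n => ∑ i ∈ Finset.range k, ((τ n ^ i : ℝ) : ℂ) * x i) atTop
            (𝓝 (∑ i ∈ Finset.range k, (0 : ℂ))) := by
          refine tendsto_finset_sum _ fun i hi => ?_
          by_cases h : i = 0
          · subst h
            rw [hx]
            simp
          · have h5 : Tendsto (fun n => ((τ n ^ i : ℝ) : ℂ)) atTop (𝓝 ((0 : ℝ) : ℂ)) :=
              (continuous_ofReal.tendsto 0).comp (hpow i h)
            have := h5.mul_const (x i)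
            rwa [ofReal_zero, zero_mul] at this
        rwa [Finset.sum_const_zero] at this
      have hMc : Tendsto (fun n => ((M n : ℝ) : ℂ)) atTop (𝓝 1) := by
        have := (continuous_ofReal.tendsto 1).comp hM1
        rwa [ofReal_one] at this
      have hEM : Tendsto (fun n => E n / M n) atTop (𝓝 0) := by
        have := (hcoef η h02).div hMc one_ne_zero
        rwa [zero_div] at this
      have hZM : Tendsto (fun n => Z n / M n) atTop (𝓝 0) := by
        have := (hcoef ζ h03).div hMc one_ne_zero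
        rwa [zero_div] at this
      have hMne : ∀ᶠ n in atTop, M n ≠ 0 := hM1.eventually_ne one_ne_zero
      have hw : TendstoUniformly (fun n Θ => (-ser b' (τ n) Θ / ser b (τ n) Θ -
          vP (E n / M n) (Z n / M n) Θ) / τ n ^ k) (fun Θ => -b' k Θ) atTop := by
        rw [Metric.tendstoUniformly_iff] at hlim ⊢
        intro e he
        filter_upwards [hlim e he, hMne] with n h1 hn Θ
        have h2 := h1 Θ
        rw [hPlow, hPlowd] at h2
        rw [vP_eq hn]
        exact h2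
      obtain ⟨c, hc0, hc⟩ := relative_limit hY H hR2 hR hv0 hEM hZM
        (fun n => pow_pos (hτ n) k) hw
      obtain ⟨α, β, hαβ⟩ := real_form hc0 hc
      have hb'k : ∀ Θ, b' k Θ = lowd (I * α) (I * β / 2) Θ := by
        intro Θ
        have h5 := hαβ Θ
        unfold lowd
        have e : I * α * exp (Θ * I) + 2 * (I * β / 2 * exp (Θ * I) ^ 2) =
          I * (α * exp (Θ * I) + β * exp (Θ * I) ^ 2) := by ring
        rw [e, I_mul_im, ← h5, neg_neg]
      refine ⟨b k 0 - low 0 (I * α) (I * β / 2) 0, I * α, I * β / 2, fun Θ => ?_, hb'k,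
        fun h => absurd h hk.ne'⟩
      have hder : ∀ Θ, HasDerivAt (fun Θ => b k Θ - low 0 (I * α) (I * β / 2) Θ) 0 Θ := by
        intro Θ
        have := (hd k Θ).sub (low_hasDerivAt 0 (I * α) (I * β / 2) Θ)
        rw [hb'k, sub_self] at this
        exact this
      have hconst := is_const_of_deriv_eq_zero (fun Θ => (hder Θ).differentiableAt)
        (fun Θ => (hder Θ).deriv) Θ 0
      have e : low (b k 0 - low 0 (I * α) (I * β / 2) 0) (I * α) (I * β / 2) Θ =
        (b k 0 - low 0 (I * α) (I * β / 2) 0) + low 0 (I * α) (I * β / 2) Θ := by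
        unfold low
        ring
      rw [e, ← hconst]
      ring

end family

end Pool.Agent.H185.FD
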