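import Pool.Agent.H185.FD.Fam

/-!
# Analytic families: conclusion
-/

open Set Filter Topology Complex
open scoped ContDiff Real

namespace Pool.Agent.H185.FD

open Pool.Agent.H719R2.PIB

lemma exp_pts : exp (((0 : ℝ) : ℂ) * I) = 1 ∧ exp ((π : ℂ) * I) = -1 ∧
    exp (((π / 2 : ℝ) : ℂ) * I) = I ∧ exp (((3 * π / 2 : ℝ) : ℂ) * I) = -I := by
  refine ⟨by simp, exp_pi_mul_I, ?_, ?_⟩
  · have : ((π / 2 : ℝ) : ℂ) * I = (π : ℂ) / 2 * I := by push_cast; ring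
    rw [this, exp_pi_div_two_mul_I]
  · have : ((3 * π / 2 : ℝ) : ℂ) * I = π * I + (π : ℂ) / 2 * I := by push_cast; ring
    rw [this, exp_add, exp_pi_mul_I, exp_pi_div_two_mul_I]
    ring

lemma low_expand (m : ℝ) (η ζ : ℂ) (Θ : ℝ) : low m η ζ Θ = m + (η.re * (exp (Θ * I)).re -
    η.im * (exp (Θ * I)).im) + (ζ.re * (exp (Θ * I) ^ 2).re - ζ.im * (exp (Θ * I) ^ 2).im) := by
  unfold low
  rw [add_re, mul_re, mul_re]
  ring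

lemma lowd_expand (η ζ : ℂ) (Θ : ℝ) : lowd η ζ Θ = -(η.re * (exp (Θ * I)).im +
    η.im * (exp (Θ * I)).re) - 2 * (ζ.re * (exp (Θ * I) ^ 2).im + ζ.im * (exp (Θ * I) ^ 2).re) := by
  unfold lowd
  rw [add_im, mul_im]
  have : (2 * (ζ * exp (Θ * I) ^ 2)).im = 2 * (ζ * exp (Θ * I) ^ 2).im := by
    simp
  rw [this, mul_im]
  ring

/-- the coefficients in terms of values -/
lemma coeffs {f f' : ℝ → ℝ} {m : ℝ} {η ζ : ℂ} (h : ∀ Θ, f Θ = low m η ζ Θ)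
    (h' : ∀ Θ, f' Θ = lowd η ζ Θ) :
    m = (f 0 + f π + f (π / 2) + f (3 * π / 2)) / 4 ∧ η.re = (f 0 - f π) / 2 ∧
      η.im = (f (3 * π / 2) - f (π / 2)) / 2 ∧
      ζ.re = (f 0 + f π - f (π / 2) - f (3 * π / 2)) / 4 ∧ ζ.im = -(f' 0 + f' π) / 4 := by
  obtain ⟨e0, e1, e2, e3⟩ := exp_pts
  rw [h, h, h, h, h', h', low_expand, low_expand, low_expand, low_expand, lowd_expand, lowd_expand,
    e0, e1, e2, e3]
  have h2 : ((1 : ℂ) ^ 2) = 1 := by norm_num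
  have h3 : ((-1 : ℂ) ^ 2) = 1 := by norm_num
  have h4 : (I ^ 2 : ℂ) = -1 := I_sq
  have h5 : ((-I) ^ 2 : ℂ) = -1 := by rw [neg_sq, I_sq]
  rw [h2, h3, h4, h5]
  simp only [one_re, one_im, neg_re, neg_im, I_re, I_im]
  refine ⟨by ring, by ring, by ring, by ring, by ring⟩

lemma ser_low {b b' : ℕ → ℝ → ℝ} {C r : ℝ} (hr : 0 < r)
    (hb : ∀ i Θ, |b i Θ| * r ^ i ≤ C) (hb' : ∀ i Θ, |b' i Θ| * r ^ i ≤ C)
    (hrep : ∀ k, ∃ (m : ℝ) (η ζ : ℂ), (∀ Θ, b k Θ = low m η ζ Θ) ∧ (∀ Θ, b' k Θ = lowd η ζ Θ))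
    {τ : ℝ} (h0 : 0 ≤ τ) (h1 : τ < r) :
    ∃ (m : ℝ) (η ζ : ℂ), (∀ Θ, ser b τ Θ = low m η ζ Θ) ∧ (∀ Θ, ser b' τ Θ = lowd η ζ Θ) := by
  choose m η ζ hm hm' using hrep
  have hs : ∀ Θ, HasSum (fun k => τ ^ k * b k Θ) (ser b τ Θ) := fun Θ =>
    (tail hr (fun i => hb i Θ) h0 h1).hasSum
  have hs' : ∀ Θ, HasSum (fun k => τ ^ k * b' k Θ) (ser b' τ Θ) := fun Θ =>
    (tail hr (fun i => hb' i Θ) h0 h1).hasSum
  have hc := fun k => coeffs (hm k) (hm' k)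
  have s1 := (((hs 0).add (hs π)).add ((hs (π / 2)).add (hs (3 * π / 2)))).div_const 4
  have s2 := ((hs 0).sub (hs π)).div_const 2
  have s3 := ((hs (3 * π / 2)).sub (hs (π / 2))).div_const 2
  have s4 := (((hs 0).add (hs π)).sub ((hs (π / 2)).add (hs (3 * π / 2)))).div_const 4
  have s5 := (((hs' 0).add (hs' π)).neg).div_const 4
  have f1 : (fun k => (τ ^ k * b k 0 + τ ^ k * b k π + (τ ^ k * b k (π / 2) +
      τ ^ k * b k (3 * π / 2))) / 4) = fun k => τ ^ k * m k := by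
    ext k; rw [(hc k).1]; ring
  have f2 : (fun k => (τ ^ k * b k 0 - τ ^ k * b k π) / 2) = fun k => τ ^ k * (η k).re := by
    ext k; rw [(hc k).2.1]; ring
  have f3 : (fun k => (τ ^ k * b k (3 * π / 2) - τ ^ k * b k (π / 2)) / 2) =
      fun k => τ ^ k * (η k).im := by
    ext k; rw [(hc k).2.2.1]; ring
  have f4 : (fun k => (τ ^ k * b k 0 + τ ^ k * b k π - (τ ^ k * b k (π / 2) +
      τ ^ k * b k (3 * π / 2))) / 4) = fun k => τ ^ k * (ζ k).re := by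
    ext k; rw [(hc k).2.2.2.1]; ring
  have f5 : (fun k => (-(τ ^ k * b' k 0 + τ ^ k * b' k π)) / 4) = fun k => τ ^ k * (ζ k).im := by
    ext k; rw [(hc k).2.2.2.2]; ring
  rw [f1] at s1
  rw [f2] at s2
  rw [f3] at s3
  rw [f4] at s4
  rw [f5] at s5
  obtain ⟨M, hM⟩ : ∃ M, HasSum (fun k => τ ^ k * m k) M := ⟨_, s1⟩
  obtain ⟨E1, hE1⟩ : ∃ E, HasSum (fun k => τ ^ k * (η k).re) E := ⟨_, s2⟩
  obtain ⟨E2, hE2⟩ : ∃ E, HasSum (fun k => τ ^ k * (η k).im) E := ⟨_, s3⟩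
  obtain ⟨Z1, hZ1⟩ : ∃ E, HasSum (fun k => τ ^ k * (ζ k).re) E := ⟨_, s4⟩
  obtain ⟨Z2, hZ2⟩ : ∃ E, HasSum (fun k => τ ^ k * (ζ k).im) E := ⟨_, s5⟩
  refine ⟨M, ⟨E1, E2⟩, ⟨Z1, Z2⟩, fun Θ => ?_, fun Θ => ?_⟩
  · refine (hs Θ).unique ?_
    rw [low_expand]
    have s6 := (hM.add ((hE1.mul_right (exp (Θ * I)).re).sub
      (hE2.mul_right (exp (Θ * I)).im))).add
      ((hZ1.mul_right (exp (Θ * I) ^ 2).re).sub (hZ2.mul_right (exp (Θ * I) ^ 2).im))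
    have f6 : (fun k => τ ^ k * m k + (τ ^ k * (η k).re * (exp (Θ * I)).re -
        τ ^ k * (η k).im * (exp (Θ * I)).im) + (τ ^ k * (ζ k).re * (exp (Θ * I) ^ 2).re -
        τ ^ k * (ζ k).im * (exp (Θ * I) ^ 2).im)) = fun k => τ ^ k * b k Θ := by
      ext k
      rw [hm k, low_expand]
      ring
    rw [f6] at s6
    exact s6
  · refine (hs' Θ).unique ?_
    rw [lowd_expand]
    have s6 := (((hE1.mul_right (exp (Θ * I)).im).add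
      (hE2.mul_right (exp (Θ * I)).re)).neg).sub
      (((hZ1.mul_right (exp (Θ * I) ^ 2).im).add (hZ2.mul_right (exp (Θ * I) ^ 2).re)).mul_left 2)
    have f6 : (fun k => -(τ ^ k * (η k).re * (exp (Θ * I)).im +
        τ ^ k * (η k).im * (exp (Θ * I)).re) - 2 * (τ ^ k * (ζ k).re * (exp (Θ * I) ^ 2).im +
        τ ^ k * (ζ k).im * (exp (Θ * I) ^ 2).re)) = fun k => τ ^ k * b' k Θ := by
      ext k
      rw [hm' k, lowd_expand]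
      ring
    rw [f6] at s6
    exact s6

/-- rational structure -/
lemma rational_of_low {Y : ℂ → ℝ} {v : ℝ → ℝ} {m : ℝ} {η ζ : ℂ} (H : HasInvolutions Y v)
    (hpos : ∀ Θ, 0 < low m η ζ Θ) (hv : ∀ Θ, v Θ = -lowd η ζ Θ / low m η ζ Θ) :
    RationalInvolutions Y := by
  have harg : ∀ p : ℂ, ‖p‖ = 1 → exp (arg p * I) = p := by
    intro p hp
    have := norm_mul_exp_arg_mul_I p
    rwa [hp, ofReal_one, one_mul] at this
  have hquad : ∀ p : ℂ, ‖p‖ = 1 →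
      TC.quad (-ζ.re) (2 * ζ.im) ζ.re (-η.re) η.im (-m) p = -low m η ζ (arg p) := by
    intro p hp
    unfold low
    rw [harg p hp]
    simp only [TC.quad, add_re, mul_re, pow_two, mul_im]
    ring
  have hdq : ∀ p : ℂ, ‖p‖ = 1 →
      TC.dq (-ζ.re) (2 * ζ.im) ζ.re (-η.re) η.im p (I * p) = -lowd η ζ (arg p) := by
    intro p hp
    unfold lowd
    rw [harg p hp]
    simp only [TC.dq, add_im, mul_re, pow_two, mul_im, I_re, I_im, re_ofNat, im_ofNat]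
    ring
  refine TC.rational (a := -ζ.re) (b := 2 * ζ.im) (c := ζ.re) (d := -η.re) (e := η.im) (f := -m)
    ?_ ?_
  · intro p hp
    rw [hquad p hp]
    have := hpos (arg p)
    linarith
  · intro p hp
    refine ⟨v (arg p), ?_, fun s t hs ht h1 h2 => ?_⟩
    · rw [hquad p hp, hdq p hp, hv]
      have := (hpos (arg p)).ne'
      field_simp
    · have := H (arg p) s t hs ht
      rw [harg p hp] at this
      exact this h1 h2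

/-- **Analytic families.** -/
theorem analytic_family {b b' : ℕ → ℝ → ℝ} {C r R : ℝ} (hr : 0 < r) (hR2 : 2 < R)
    (hd : ∀ i Θ, HasDerivAt (b i) (b' i Θ) Θ)
    (hb : ∀ i Θ, |b i Θ| * r ^ i ≤ C) (hb' : ∀ i Θ, |b' i Θ| * r ^ i ≤ C)
    (hb0 : ∀ Θ, b 0 Θ = 1) {T : Set ℝ} (hT : T ⊆ Ioo 0 r) (hT0 : (0 : ℝ) ∈ closure T)
    {Y : ℝ → ℂ → ℝ} (hY : ∀ τ ∈ T, IsCollar (Y τ))
    (hR : ∀ τ ∈ T, ∀ z : ℂ, ‖z‖ ≤ R → Y τ z ≤ 1) (hpos : ∀ τ ∈ T, ∀ Θ, 0 < ser b τ Θ)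
    (H : ∀ τ ∈ T, HasInvolutions (Y τ) (fun Θ => -ser b' τ Θ / ser b τ Θ)) :
    ∀ τ ∈ T, ∃ (κ : ℝ) (η ζ : ℂ), (∀ p : ℂ, ‖p‖ = 1 → 0 < κ + (η * p + ζ * p ^ 2).re) ∧
      ∀ c, 0 ≤ c → c ≤ 1 → ∃ s : ℝ, 0 ≤ s ∧ s * ‖ζ‖ < 1 ∧
        {z : ℂ | Y τ z = c} = {z : ℂ | normSq z - 1 = s * (κ + (η * z + ζ * z ^ 2).re)} := by
  obtain ⟨τ, hτT, hτ0⟩ := mem_closure_iff_seq_limit.1 hT0
  have hrep : ∀ k, ∃ (m : ℝ) (η ζ : ℂ), (∀ Θ, b k Θ = low m η ζ Θ) ∧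
      (∀ Θ, b' k Θ = lowd η ζ Θ) := by
    intro k
    obtain ⟨m, η, ζ, h1, h2, -⟩ := coefficients (τ := τ) (Y := fun n => Y (τ n)) hr hR2 hd hb hb'
      hb0 (fun n => (hT (hτT n)).1) hτ0 (fun n => hY _ (hτT n)) (fun n => hR _ (hτT n))
      (fun n => H _ (hτT n)) k
    exact ⟨m, η, ζ, h1, h2⟩
  intro t ht
  obtain ⟨m, η, ζ, h1, h2⟩ := ser_low hr hb hb' hrep (hT ht).1.le (hT ht).2
  refine rational_rigidity (hY t ht) (rational_of_low (m := m) (η := η) (ζ := ζ) (H t ht)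
    (fun Θ => ?_) (fun Θ => ?_))
  · rw [← h1]
    exact hpos t ht Θ
  · rw [h1, h2]

end Pool.Agent.H185.FD
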