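import Pool.Agent.H185.FD.Per

/-!
# First order deformations
-/

open Set Filter Topology Complex
open scoped ContDiff Real

namespace Pool.Agent.H185.FD

open Pool.Agent.H719R2.PIB

/-- On the tangent line `x ↦ p + x i p` of the unit circle at `p = exp (i Θ)` the two points of
each leaf of the collar are exchanged by the projective involution `x ↦ -x / (1 - v(Θ) x)`; that is,
their coordinates `s < 0 < t` satisfy `1/s + 1/t = v(Θ)`. -/
def HasInvolutions (Y : ℂ → ℝ) (v : ℝ → ℝ) : Prop :=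
  ∀ Θ s t : ℝ, s < 0 → 0 < t →
    Y (exp (Θ * I) + t • (I * exp (Θ * I))) ≤ 1 →
    Y (exp (Θ * I) + s • (I * exp (Θ * I))) = Y (exp (Θ * I) + t • (I * exp (Θ * I))) →
    s⁻¹ + t⁻¹ = v Θ

lemma HasInvolutions.hv {Y : ℂ → ℝ} {v : ℝ → ℝ} (h : IsCollar Y) (H : HasInvolutions Y v) :
    HV Y v := by
  intro c Θ h0 h1
  have hs := S_neg h h0 h1 Θ
  have ht := S_pos h h0 h1 Θ
  have e1 : Y (P Θ (S Y (-1) c Θ)) = c := Y_Z h h0 h1 Θ (σ := -1) (by norm_num)
  have e2 : Y (P Θ (S Y 1 c Θ)) = c := Y_Z h h0 h1 Θ (σ := 1) (by norm_num)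
  have h2 := H Θ _ _ hs ht (by rw [P_eq', e2]; exact h1) (by rw [P_eq', P_eq', e1, e2])
  unfold yy xx
  linarith

/-- Estimate for one foliation. -/
theorem estimate {Y : ℂ → ℝ} {v : ℝ → ℝ} (h : IsCollar Y) (H : HasInvolutions Y v) {R : ℝ}
    (hR : ∀ z : ℂ, ‖z‖ ≤ R → Y z ≤ 1) {q : ℕ} (hq : 3 ≤ q) (hRq : 1 < R * Real.cos (π / q))
    {δ L : ℝ} (hδ : ∀ Θ, |v Θ| ≤ δ) (hL : ∀ a b, |v a - v b| ≤ L * |a - b|) (Θ : ℝ) :
    |∑ j ∈ Finset.range q, v (Θ + j * (2 * π / q))| ≤ 4 * q ^ 3 * L * δ := by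
  have hv := H.hv h
  obtain ⟨c, h0, h1, hper⟩ := per_leaf h hv hR hq hRq
  have hL0 : 0 ≤ L := by
    have := (abs_nonneg _).trans (hL 1 0)
    simpa using this
  have h2 := sum_rule h hv h0 h1.le hper Θ
  have h3 : ∑ j ∈ Finset.range q, v (Θ + j * (2 * π / q)) =
      ∑ j ∈ Finset.range q, (v (Θ + j * (2 * π / q)) - v ((F Y c)^[j] Θ)) := by
    rw [Finset.sum_sub_distrib, h2, sub_zero]
  rw [h3]
  refine (Finset.abs_sum_le_sum_abs _ _).trans ?_
  have h4 : ∑ j ∈ Finset.range q, |v (Θ + j * (2 * π / q)) - v ((F Y c)^[j] Θ)| ≤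
      ∑ _j ∈ Finset.range q, L * (4 * q ^ 2 * δ) := by
    apply Finset.sum_le_sum
    intro j hj
    refine (hL _ _).trans (mul_le_mul_of_nonneg_left ?_ hL0)
    rw [abs_sub_comm]
    exact orbit_close h hv h0 h1.le (by omega) hper hδ Θ (Finset.mem_range.1 hj).le
  refine h4.trans (le_of_eq ?_)
  rw [Finset.sum_const, Finset.card_range, nsmul_eq_mul]
  ring

lemma v_periodic {Y : ℂ → ℝ} {v : ℝ → ℝ} (hv : HV Y v) (Θ : ℝ) : v (Θ + 2 * π) = v Θ := by
  have h1 := hv 1 Θ one_pos le_rfl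
  have h2 := hv 1 (Θ + 2 * π) one_pos le_rfl
  rw [yy_periodic, xx_periodic] at h2
  linarith

section limit

variable {Y : ℕ → ℂ → ℝ} {v : ℕ → ℝ → ℝ} {w : ℝ → ℝ} {ε : ℕ → ℝ} {R : ℝ}
  (hY : ∀ n, IsCollar (Y n)) (H : ∀ n, HasInvolutions (Y n) (v n))
  (hw : TendstoUniformly (fun n Θ => v n Θ / ε n) w atTop)
include hY H hw

lemma w_cont : Continuous w :=
  hw.continuous (Frequently.of_forall fun n =>
    (v_cont (hY n) ((H n).hv (hY n))).div_const _)

lemma w_per (Θ : ℝ) : w (Θ + 2 * π) = w Θ := by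
  have h1 := hw.tendsto_at (Θ + 2 * π)
  have h2 := hw.tendsto_at Θ
  refine tendsto_nhds_unique h1 ?_
  refine h2.congr fun n => ?_
  rw [v_periodic ((H n).hv (hY n))]

lemma limit_sum (hR : ∀ n (z : ℂ), ‖z‖ ≤ R → Y n z ≤ 1) (hε : ∀ n, 0 < ε n)
    (hε0 : Tendsto ε atTop (𝓝 0)) {q : ℕ} (hq : 3 ≤ q) (hRq : 1 < R * Real.cos (π / q)) (Θ : ℝ) :
    ∑ j ∈ Finset.range q, w (Θ + j * (2 * π / q)) = 0 := by
  have hwc := w_cont hY H hw
  have hwp : Function.Periodic w (2 * π) := w_per hY H hw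
  obtain ⟨M, hM⟩ : ∃ M, ∀ x, |w x| ≤ M := by
    have hcomp := hwp.compact_of_continuous (by positivity : (2 * π : ℝ) ≠ 0) hwc
    obtain ⟨M, hM⟩ := hcomp.isBounded.exists_norm_le
    exact ⟨M, fun x => hM _ (mem_range_self x)⟩
  have hbound : ∀ᶠ n in atTop, ∀ x, |v n x| ≤ ε n * (M + 1) := by
    have h1 := (Metric.tendstoUniformly_iff.1 hw) 1 one_pos
    filter_upwards [h1] with n hn x
    have h2 := hn x
    rw [Real.dist_eq, abs_sub_comm] at h2
    have h3 : |v n x / ε n| ≤ M + 1 := by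
      have e : v n x / ε n = (v n x / ε n - w x) + w x := by ring
      rw [e]
      refine (abs_add_le _ _).trans ?_
      have := hM x
      linarith
    rw [abs_div, abs_of_pos (hε n), div_le_iff₀ (hε n)] at h3
    linarith
  choose c hc0 hc1 hper using fun n => per_leaf (hY n) ((H n).hv (hY n)) (hR n) hq hRq
  have horb : ∀ j : ℕ, j < q → Tendsto (fun n => (F (Y n) (c n))^[j] Θ) atTop
      (𝓝 (Θ + j * (2 * π / q))) := by
    intro j hj
    rw [tendsto_iff_dist_tendsto_zero]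
    have h1 : Tendsto (fun n => 4 * (q : ℝ) ^ 2 * (ε n * (M + 1))) atTop (𝓝 0) := by
      have := (hε0.mul_const (M + 1)).const_mul (4 * (q : ℝ) ^ 2)
      simpa using this
    refine squeeze_zero' (Eventually.of_forall fun n => dist_nonneg) ?_ h1
    filter_upwards [hbound] with n hn
    rw [Real.dist_eq]
    exact orbit_close (hY n) ((H n).hv (hY n)) (hc0 n) (hc1 n).le (by omega) (hper n) hn Θ hj.le
  have hsum : Tendsto (fun n => ∑ j ∈ Finset.range q, v n ((F (Y n) (c n))^[j] Θ) / ε n) atTop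
      (𝓝 (∑ j ∈ Finset.range q, w (Θ + j * (2 * π / q)))) := by
    refine tendsto_finset_sum _ fun j hj => ?_
    exact hw.tendsto_comp hwc.continuousAt (horb j (Finset.mem_range.1 hj))
  refine tendsto_nhds_unique hsum ?_
  refine tendsto_const_nhds.congr fun n => ?_
  rw [← Finset.sum_div, sum_rule (hY n) ((H n).hv (hY n)) (hc0 n) (hc1 n).le (hper n) Θ, zero_div]

end limit

/-- A continuous periodic function all of whose `q`-means vanish for `q ≥ q₀` is a trigonometric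
polynomial of degree less than `q₀`. -/
lemma trig {w : ℝ → ℝ} (hc : Continuous w) (hper : ∀ Θ, w (Θ + 2 * π) = w Θ) {q₀ : ℕ}
    (hq₀ : 0 < q₀) (hsum : ∀ q : ℕ, q₀ ≤ q → ∀ Θ : ℝ,
      ∑ j ∈ Finset.range q, w (Θ + j * (2 * π / q)) = 0) :
    ∃ c : ℤ → ℂ, c 0 = 0 ∧ ∀ Θ : ℝ, (w Θ : ℂ) =
      ∑ n ∈ Finset.Ioo (-(q₀ : ℤ)) q₀, c n * exp (n * Θ * I) := by
  have hT : Fact (0 < 2 * π) := ⟨by positivity⟩
  have hper' : Function.Periodic (fun Θ : ℝ => (w Θ : ℂ)) (2 * π) := fun Θ => by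
    simp only [hper]
  have hwc : Continuous (fun Θ : ℝ => (w Θ : ℂ)) := continuous_ofReal.comp hc
  -- the integrals
  have hI : ∀ n : ℤ, (n = 0 ∨ (q₀ : ℤ) ≤ |n|) →
      ∫ x in (0 : ℝ)..(0 + 2 * π), exp (-(n * x * I)) * (w x : ℂ) = 0 := by
    intro n hn
    obtain ⟨q, hq, d, hd⟩ : ∃ q : ℕ, q₀ ≤ q ∧ ∃ d : ℤ, n = q * d := by
      rcases hn with h | h
      · exact ⟨q₀, le_rfl, 0, by rw [h]; ring⟩
      · refine ⟨n.natAbs, ?_, ?_⟩
        · have h2 : ((n.natAbs : ℕ) : ℤ) = |n| := Int.natCast_natAbs n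
          omega
        · rcases Int.natAbs_eq n with h2 | h2
          · exact ⟨1, by rw [mul_one]; exact h2⟩
          · exact ⟨-1, by rw [mul_neg_one]; exact h2⟩
    have hqpos : 0 < q := lt_of_lt_of_le hq₀ hq
    have hqne : (q : ℂ) ≠ 0 := by exact_mod_cast hqpos.ne'
    set G : ℝ → ℂ := fun x => exp (-(n * x * I)) * (w x : ℂ) with hG
    have hGper : Function.Periodic G (2 * π) := by
      intro x
      simp only [hG]
      rw [hper]
      congr 1
      have e : -((n : ℂ) * ((x + 2 * π : ℝ) : ℂ) * I) =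
          -(n * x * I) + ((-n : ℤ) : ℂ) * (2 * π * I) := by
        push_cast; ring
      rw [e, exp_add, exp_int_mul_two_pi_mul_I, mul_one]
    have hshift : ∀ j : ℕ, (∫ x in (0 : ℝ)..(0 + 2 * π),
        exp (-(n * x * I)) * (w (x + j * (2 * π / q)) : ℂ)) =
        ∫ x in (0 : ℝ)..(0 + 2 * π), G x := by
      intro j
      have e1 : ∀ x : ℝ, exp (-(n * x * I)) * (w (x + j * (2 * π / q)) : ℂ) =
          G (x + j * (2 * π / q)) := by
        intro x
        simp only [hG]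
        congr 1
        have e : -((n : ℂ) * ((x + j * (2 * π / q) : ℝ) : ℂ) * I) =
            -(n * x * I) + ((-(d * j) : ℤ) : ℂ) * (2 * π * I) := by
          rw [hd]
          push_cast
          field_simp
          ring
        rw [e, exp_add, exp_int_mul_two_pi_mul_I, mul_one]
      simp_rw [e1]
      rw [intervalIntegral.integral_comp_add_right (fun x => G x) ((j : ℝ) * (2 * π / q))]
      have e2 : (0 : ℝ) + 2 * π + j * (2 * π / q) = (0 + j * (2 * π / q)) + 2 * π := by ring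
      rw [e2]
      exact hGper.intervalIntegral_add_eq _ _
    have hint : ∀ j : ℕ, IntervalIntegrable
        (fun x : ℝ => exp (-(n * x * I)) * (w (x + j * (2 * π / q)) : ℂ)) MeasureTheory.volume
        0 (0 + 2 * π) := by
      intro j
      apply Continuous.intervalIntegrable
      have : Continuous (fun x : ℝ => ((w (x + j * (2 * π / q)) : ℝ) : ℂ)) :=
        hwc.comp (by fun_prop)
      fun_prop
    have htot : ∑ j ∈ Finset.range q, (∫ x in (0 : ℝ)..(0 + 2 * π),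
        exp (-(n * x * I)) * (w (x + j * (2 * π / q)) : ℂ)) = 0 := by
      rw [← intervalIntegral.integral_finset_sum (fun j _ => hint j)]
      have e3 : ∀ x : ℝ, ∑ j ∈ Finset.range q,
          exp (-(n * x * I)) * (w (x + j * (2 * π / q)) : ℂ) = 0 := by
        intro x
        rw [← Finset.mul_sum]
        have := hsum q hq x
        have h2 : ∑ j ∈ Finset.range q, ((w (x + j * (2 * π / q)) : ℝ) : ℂ) = 0 := by
          rw [← ofReal_sum, this, ofReal_zero]
        rw [h2, mul_zero]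
      simp_rw [e3]
      simp
    simp_rw [hshift] at htot
    rw [Finset.sum_const, Finset.card_range, nsmul_eq_mul] at htot
    exact (mul_eq_zero.1 htot).resolve_left hqne
  let f : C(AddCircle (2 * π), ℂ) := ⟨hper'.lift, continuous_coinduced_dom.mpr hwc⟩
  have hfx : ∀ x : ℝ, f (x : AddCircle (2 * π)) = (w x : ℂ) := fun x => rfl
  have hcoef : ∀ n : ℤ, (n = 0 ∨ (q₀ : ℤ) ≤ |n|) → fourierCoeff f n = 0 := by
    intro n hn
    rw [fourierCoeff_eq_intervalIntegral f n 0]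
    have e : ∀ x : ℝ, @fourier (2 * π) (-n) x • f (x : AddCircle (2 * π)) =
        exp (-(n * x * I)) * (w x : ℂ) := by
      intro x
      rw [hfx, smul_eq_mul, fourier_coe_apply]
      congr 2
      have hpi : (π : ℂ) ≠ 0 := by exact_mod_cast Real.pi_ne_zero
      push_cast
      field_simp
    simp_rw [e]
    rw [hI n hn, smul_zero]
  have hsupp : ∀ n ∉ Finset.Ioo (-(q₀ : ℤ)) q₀, fourierCoeff f n = 0 := by
    intro n hn
    apply hcoef
    right
    rw [Finset.mem_Ioo, not_and_or, not_lt, not_lt] at hn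
    rcases hn with h | h
    · exact (by linarith : (q₀ : ℤ) ≤ -n).trans (neg_le_abs n)
    · exact h.trans (le_abs_self n)
  have hsummable : Summable (fourierCoeff f) := summable_of_ne_finset_zero hsupp
  refine ⟨fourierCoeff f, hcoef 0 (Or.inl rfl), fun Θ => ?_⟩
  have h1 := has_pointwise_sum_fourier_series_of_summable hsummable (Θ : AddCircle (2 * π))
  have h2 : HasSum (fun i => fourierCoeff f i • fourier i (Θ : AddCircle (2 * π)))
      (∑ i ∈ Finset.Ioo (-(q₀ : ℤ)) q₀, fourierCoeff f i • fourier i (Θ : AddCircle (2 * π))) :=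
    hasSum_sum_of_ne_finset_zero (fun n hn => by rw [hsupp n hn, zero_smul])
  have h3 := h1.unique h2
  rw [hfx] at h3
  rw [h3]
  refine Finset.sum_congr rfl fun n _ => ?_
  rw [smul_eq_mul, fourier_coe_apply]
  congr 2
  have hpi : (π : ℂ) ≠ 0 := by exact_mod_cast Real.pi_ne_zero
  push_cast
  field_simp

end Pool.Agent.H185.FD
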