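import Pool.Agent.H185.FD.Rel

/-!
# The foliations by pencils of conics close to the concentric circles
-/

open Set Filter Topology Complex
open scoped ContDiff Real

namespace Pool.Agent.H185.FD

open Pool.Agent.H719R2.PIB

/-- the quadratic polynomial `1 + Re (η z + ζ z²)` -/
noncomputable def PP (η ζ z : ℂ) : ℝ := 1 + (η * z + ζ * z ^ 2).re

/-- the pencil foliation -/
noncomputable def YP (η ζ z : ℂ) : ℝ := if ‖z‖ < 4 then (normSq z - 1) / (8 * PP η ζ z) else 2

/-- its structure function -/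
noncomputable def vP (η ζ : ℂ) (Θ : ℝ) : ℝ :=
  (η * exp (Θ * I) + 2 * (ζ * exp (Θ * I) ^ 2)).im / PP η ζ (exp (Θ * I))

variable {η ζ : ℂ}

lemma PP_bound (hη : ‖η‖ ≤ 1 / 100) (hζ : ‖ζ‖ ≤ 1 / 100) (z : ℂ) :
    |(η * z + ζ * z ^ 2).re| ≤ (‖z‖ + ‖z‖ ^ 2) / 100 := by
  refine (abs_re_le_norm _).trans ?_
  refine (norm_add_le _ _).trans ?_
  rw [norm_mul, norm_mul, norm_pow]
  have h1 := mul_le_mul_of_nonneg_right hη (norm_nonneg z)
  have h2 := mul_le_mul_of_nonneg_right hζ (sq_nonneg ‖z‖)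
  linarith

lemma PP_lower (hη : ‖η‖ ≤ 1 / 100) (hζ : ‖ζ‖ ≤ 1 / 100) {z : ℂ} (hz : ‖z‖ ≤ 4) :
    4 / 5 ≤ PP η ζ z := by
  have h1 := (abs_le.1 (PP_bound hη hζ z)).1
  unfold PP
  nlinarith [norm_nonneg z]

lemma YP_le_iff (hη : ‖η‖ ≤ 1 / 100) (hζ : ‖ζ‖ ≤ 1 / 100) {c : ℝ} (hc0 : 0 ≤ c) (hc : c ≤ 1)
    (z : ℂ) : YP η ζ z ≤ c ↔ normSq z - 1 - 8 * c * PP η ζ z ≤ 0 := by
  unfold YP
  split_ifs with h
  · have h1 := PP_lower hη hζ h.le
    rw [div_le_iff₀ (by linarith)]
    constructor <;> intro h2 <;> linarith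
  · push Not at h
    constructor
    · intro h2
      linarith
    · intro h2
      exfalso
      have h3 := (abs_le.1 (PP_bound hη hζ z)).2
      have h4 : c * PP η ζ z ≤ 1 + (‖z‖ + ‖z‖ ^ 2) / 100 := by
        have h5 : PP η ζ z ≤ 1 + (‖z‖ + ‖z‖ ^ 2) / 100 := by
          unfold PP; linarith
        have h6 : 0 ≤ 1 + (‖z‖ + ‖z‖ ^ 2) / 100 := by positivity
        calc c * PP η ζ z ≤ c * (1 + (‖z‖ + ‖z‖ ^ 2) / 100) := mul_le_mul_of_nonneg_left h5 hc0
          _ ≤ 1 * (1 + (‖z‖ + ‖z‖ ^ 2) / 100) := mul_le_mul_of_nonneg_right hc h6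
          _ = _ := one_mul _
      rw [normSq_eq_norm_sq] at h2
      nlinarith

lemma contDiff_PP (η ζ : ℂ) : ContDiff ℝ 1 (PP η ζ) := by
  unfold PP
  have h1 : ContDiff ℝ 1 (fun z : ℂ => η * z + ζ * z ^ 2) := by fun_prop
  exact contDiff_const.add (reCLM.contDiff.comp h1)

lemma contDiff_normSq : ContDiff ℝ 1 (fun z : ℂ => normSq z) := by
  have : (fun z : ℂ => normSq z) = fun z : ℂ => reCLM z * reCLM z + imCLM z * imCLM z := by
    ext z
    simp [normSq_apply]
  rw [this]
  fun_prop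

lemma YP_eq {z : ℂ} (hz : ‖z‖ < 4) : YP η ζ z = (normSq z - 1) / (8 * PP η ζ z) := by
  unfold YP
  rw [if_pos hz]

lemma norm_lt_of_YP {z : ℂ} (hz : YP η ζ z ≤ 1) : ‖z‖ < 4 := by
  by_contra h
  unfold YP at hz
  rw [if_neg h] at hz
  linarith

lemma smooth_YP (hη : ‖η‖ ≤ 1 / 100) (hζ : ‖ζ‖ ≤ 1 / 100) :
    ContDiffOn ℝ 1 (YP η ζ) (Metric.ball 0 4) := by
  have h1 : ContDiffOn ℝ 1 (fun z => (normSq z - 1) / (8 * PP η ζ z)) (Metric.ball 0 4) := by
    refine ContDiffOn.div ?_ ?_ ?_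
    · exact (contDiff_normSq.sub contDiff_const).contDiffOn
    · exact (contDiff_const.mul (contDiff_PP η ζ)).contDiffOn
    · intro z hz
      have hz' : ‖z‖ < 4 := by simpa using hz
      have := PP_lower hη hζ hz'.le
      linarith
  refine h1.congr fun z hz => ?_
  exact YP_eq (by simpa using hz)

theorem collar_YP (hη : ‖η‖ ≤ 1 / 100) (hζ : ‖ζ‖ ≤ 1 / 100) : IsCollar (YP η ζ) := by
  refine ⟨?_, ?_, ?_, ?_, ?_, ?_⟩
  · refine ⟨Metric.ball 0 4, Metric.isOpen_ball, ?_, ?_⟩
    · rintro z ⟨_, hz⟩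
      simpa using norm_lt_of_YP hz
    · exact smooth_YP hη hζ
  · intro z h0 h1 hcon
    have hz4 := norm_lt_of_YP h1
    have hnorm : 1 ≤ normSq z := by
      rw [YP_eq hz4] at h0
      by_contra h
      push Not at h
      have := PP_lower hη hζ hz4.le
      have : (normSq z - 1) / (8 * PP η ζ z) < 0 := div_neg_of_neg_of_pos (by linarith) (by linarith)
      linarith
    -- radial derivative
    have hdiff : DifferentiableAt ℝ (YP η ζ) z := by
      have : Metric.ball (0 : ℂ) 4 ∈ 𝓝 z := Metric.isOpen_ball.mem_nhds (by simpa using hz4)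
      exact ((smooth_YP hη hζ).contDiffAt this).differentiableAt (by norm_num)
    set A := (η * z).re with hA
    set B := (ζ * z ^ 2).re with hB
    have hline : HasDerivAt (fun r : ℝ => r • z) z 1 := by
      simpa using (hasDerivAt_id (1 : ℝ)).smul_const z
    have h3 : HasDerivAt (fun r : ℝ => YP η ζ (r • z)) 0 1 := by
      have h4 : HasFDerivAt (YP η ζ) (fderiv ℝ (YP η ζ) z) ((1 : ℝ) • z) := by
        rw [one_smul]
        exact hdiff.hasFDerivAt
      have h5 := h4.comp_hasDerivAt (1 : ℝ) hline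
      rw [hcon] at h5
      have h6 : HasDerivAt (fun r : ℝ => YP η ζ (r • z)) ((0 : ℂ →L[ℝ] ℝ) z) 1 := h5
      rw [ContinuousLinearMap.zero_apply] at h6
      exact h6
    have hP1 : PP η ζ z = 1 + (A + B) := by
      unfold PP
      rw [add_re]
    have h6 : HasDerivAt (fun r : ℝ => (r ^ 2 * normSq z - 1) / (8 * (1 + (A * r + B * r ^ 2))))
        (((2 * normSq z) * (8 * (1 + (A + B))) - (normSq z - 1) * (8 * (A + 2 * B))) /
          (8 * (1 + (A + B))) ^ 2) 1 := by
      have hn : HasDerivAt (fun r : ℝ => r ^ 2 * normSq z - 1) (2 * normSq z) 1 := by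
        have := (((hasDerivAt_id (1 : ℝ)).pow 2).mul_const (normSq z)).sub_const 1
        refine this.congr_deriv ?_
        simp
      have hd : HasDerivAt (fun r : ℝ => 8 * (1 + (A * r + B * r ^ 2))) (8 * (A + 2 * B)) 1 := by
        have h7 := ((hasDerivAt_id (1 : ℝ)).const_mul A)
        have h8 := (((hasDerivAt_id (1 : ℝ)).pow 2).const_mul B)
        have := ((h7.add h8).const_add 1).const_mul 8
        refine this.congr_deriv ?_
        simp
        ring
      have hne : (8 * (1 + (A * (1 : ℝ) + B * (1 : ℝ) ^ 2))) ≠ 0 := by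
        have := PP_lower hη hζ hz4.le
        rw [hP1] at this
        simp only [mul_one, one_pow]
        linarith
      refine (hn.div hd hne).congr_deriv ?_
      simp only [mul_one, one_pow, one_mul]
    have h9 : (fun r : ℝ => YP η ζ (r • z)) =ᶠ[𝓝 1]
        fun r : ℝ => (r ^ 2 * normSq z - 1) / (8 * (1 + (A * r + B * r ^ 2))) := by
      have hc : ContinuousAt (fun r : ℝ => ‖r • z‖) 1 := by fun_prop
      have : ∀ᶠ r : ℝ in 𝓝 1, ‖r • z‖ < 4 := hc.eventually_lt_const (by simpa using hz4)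
      filter_upwards [this] with r hr
      rw [YP_eq hr]
      have e1 : normSq (r • z) = r ^ 2 * normSq z := by
        rw [real_smul, normSq_mul, normSq_ofReal]; ring
      have e2 : PP η ζ (r • z) = 1 + (A * r + B * r ^ 2) := by
        unfold PP
        have : η * (r • z) + ζ * (r • z) ^ 2 = (r : ℂ) * (η * z) + ((r ^ 2 : ℝ) : ℂ) * (ζ * z ^ 2) := by
          rw [real_smul]; push_cast; ring
        rw [this, add_re, re_ofReal_mul, re_ofReal_mul]
        ring
      rw [e1, e2]
    have h10 := h3.unique (h6.congr_of_eventuallyEq h9)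
    have hPl := PP_lower hη hζ hz4.le
    rw [hP1] at hPl
    have hA1 : |A| ≤ 4 / 100 := by
      refine (abs_re_le_norm _).trans ?_
      rw [norm_mul]
      have := mul_le_mul hη hz4.le (norm_nonneg z) (by norm_num)
      linarith
    have hB1 : |B| ≤ 16 / 100 := by
      refine (abs_re_le_norm _).trans ?_
      rw [norm_mul, norm_pow]
      have h11 : ‖z‖ ^ 2 ≤ 16 := by nlinarith [norm_nonneg z]
      have := mul_le_mul hζ h11 (by positivity) (by norm_num)
      linarith
    have hA2 := abs_le.1 hA1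
    have hB2 := abs_le.1 hB1
    have h12 : 0 < ((2 * normSq z) * (8 * (1 + (A + B))) - (normSq z - 1) * (8 * (A + 2 * B))) /
          (8 * (1 + (A + B))) ^ 2 := by
      apply div_pos
      · nlinarith
      · have : 0 < 8 * (1 + (A + B)) := by linarith
        positivity
    linarith
  · intro c h0 h1
    have h2 : {z | YP η ζ z ≤ c} = {z | normSq z - 1 - 8 * c * PP η ζ z ≤ 0} := by
      ext z
      exact YP_le_iff hη hζ h0 h1 z
    refine Metric.isCompact_of_isClosed_isBounded ?_ ?_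
    · rw [h2]
      refine isClosed_le ?_ continuous_const
      have := (contDiff_PP η ζ).continuous
      have h3 := contDiff_normSq.continuous
      fun_prop
    · refine (Metric.isBounded_ball (x := (0 : ℂ)) (r := 4)).subset fun z hz => ?_
      have hz' : YP η ζ z ≤ c := hz
      simpa using norm_lt_of_YP (hz'.trans h1)
  · intro c h0 h1
    have h2 : {z | YP η ζ z ≤ c} = {z | normSq z - 1 - 8 * c * PP η ζ z ≤ 0} := by
      ext z
      exact YP_le_iff hη hζ h0 h1 z
    rw [h2]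
    intro x hx y hy s t hs ht hst
    have hx' : normSq x - 1 - 8 * c * PP η ζ x ≤ 0 := hx
    have hy' : normSq y - 1 - 8 * c * PP η ζ y ≤ 0 := hy
    show normSq (s • x + t • y) - 1 - 8 * c * PP η ζ (s • x + t • y) ≤ 0
    have ht' : t = 1 - s := by linarith
    have key : normSq (s • x + t • y) - 1 - 8 * c * PP η ζ (s • x + t • y) =
        s * (normSq x - 1 - 8 * c * PP η ζ x) + t * (normSq y - 1 - 8 * c * PP η ζ y) -
          s * t * (normSq (x - y) - 8 * c * (ζ * (x - y) ^ 2).re) := by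
      rw [ht']
      unfold PP
      simp only [normSq_apply, real_smul, add_re, add_im, mul_re, mul_im, ofReal_re, ofReal_im,
        sub_re, sub_im, pow_two]
      ring
    have hQ : 0 ≤ normSq (x - y) - 8 * c * (ζ * (x - y) ^ 2).re := by
      have h3 : |(ζ * (x - y) ^ 2).re| ≤ 1 / 100 * normSq (x - y) := by
        refine (abs_re_le_norm _).trans ?_
        rw [norm_mul, norm_pow, normSq_eq_norm_sq]
        exact mul_le_mul_of_nonneg_right hζ (by positivity)
      have h4 := (abs_le.1 h3).2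
      have h5 := normSq_nonneg (x - y)
      have h6 : c * (ζ * (x - y) ^ 2).re ≤ 1 / 100 * normSq (x - y) := by
        calc c * (ζ * (x - y) ^ 2).re ≤ c * (1 / 100 * normSq (x - y)) :=
              mul_le_mul_of_nonneg_left h4 h0
          _ ≤ 1 * (1 / 100 * normSq (x - y)) := mul_le_mul_of_nonneg_right h1 (by positivity)
          _ = _ := one_mul _
      linarith
    rw [key]
    have h7 := mul_nonneg (mul_nonneg hs ht) hQ
    have h8 := mul_nonneg hs (neg_nonneg.2 hx')
    have h9 := mul_nonneg ht (neg_nonneg.2 hy')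
    linarith
  · intro z
    unfold YP
    split_ifs with h
    · have h1 := PP_lower hη hζ h.le
      rw [div_eq_zero_iff, normSq_eq_norm_sq]
      constructor
      · rintro (h2 | h2)
        · have : (‖z‖ - 1) * (‖z‖ + 1) = 0 := by linarith
          rcases mul_eq_zero.1 this with h3 | h3
          · linarith
          · have := norm_nonneg z
            linarith
        · linarith
      · intro h2
        left
        rw [h2]
        norm_num
    · constructor
      · intro h2
        norm_num at h2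
      · intro h2
        exfalso
        apply h
        rw [h2]
        norm_num
  · intro z
    unfold YP
    split_ifs with h
    · have h1 := PP_lower hη hζ h.le
      have h2 := norm_nonneg z
      rw [div_lt_iff₀ (by linarith), zero_mul, normSq_eq_norm_sq]
      constructor
      · intro h3
        by_contra h4
        push Not at h4
        nlinarith
      · intro h3
        nlinarith
    · constructor
      · intro h2
        norm_num at h2
      · intro h2
        exfalso
        apply h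
        linarith

lemma disc_YP (hη : ‖η‖ ≤ 1 / 100) (hζ : ‖ζ‖ ≤ 1 / 100) (z : ℂ) (hz : ‖z‖ ≤ 5 / 2) :
    YP η ζ z ≤ 1 := by
  rw [YP_le_iff hη hζ zero_le_one le_rfl, normSq_eq_norm_sq]
  have h1 := PP_lower hη hζ (z := z) (by linarith)
  nlinarith [norm_nonneg z]

lemma PP_line (η ζ p : ℂ) (t : ℝ) : PP η ζ (p + t • (I * p)) =
    PP η ζ p - t * (η * p + 2 * (ζ * p ^ 2)).im - t ^ 2 * (ζ * p ^ 2).re := by
  unfold PP
  simp only [real_smul, add_re, add_im, mul_re, mul_im, ofReal_re, ofReal_im, I_re, I_im, pow_two,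
    re_ofNat, im_ofNat]
  ring

theorem inv_YP (hη : ‖η‖ ≤ 1 / 100) (hζ : ‖ζ‖ ≤ 1 / 100) : HasInvolutions (YP η ζ) (vP η ζ) := by
  intro Θ s t hs ht h1 h2
  set p := exp (Θ * I) with hp
  have hpn : normSq p = 1 := by
    rw [normSq_eq_norm_sq, hp, norm_exp_ofReal_mul_I]; norm_num
  have hn : ∀ x : ℝ, normSq (p + x • (I * p)) = 1 + x ^ 2 := by
    intro x
    have : p + x • (I * p) = p * (1 + x * I) := by rw [real_smul]; ring
    rw [this, normSq_mul, hpn, one_mul, normSq_apply]
    simp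
    ring
  have h1' : YP η ζ (p + s • (I * p)) ≤ 1 := by rw [h2]; exact h1
  have ht4 := norm_lt_of_YP h1
  have hs4 := norm_lt_of_YP h1'
  have hPt := PP_lower hη hζ ht4.le
  have hPs := PP_lower hη hζ hs4.le
  rw [YP_eq ht4, YP_eq hs4, hn, hn, div_eq_div_iff (by linarith) (by linarith), PP_line,
    PP_line] at h2
  have hP0 : 4 / 5 ≤ PP η ζ p := by
    refine PP_lower hη hζ ?_
    rw [hp, norm_exp_ofReal_mul_I]
    norm_num
  set B := (η * p + 2 * (ζ * p ^ 2)).im with hB
  set P0 := PP η ζ p with hP0'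
  have h3 : (s - t) * (P0 * (s + t) - B * (s * t)) = 0 := by
    linear_combination h2 / 8
  have h4 : P0 * (s + t) = B * (s * t) := by
    rcases mul_eq_zero.1 h3 with h | h
    · linarith
    · linarith
  unfold vP
  rw [← hp, ← hB, ← hP0', eq_div_iff (by linarith)]
  have hs' := hs.ne
  have ht' := ht.ne'
  field_simp
  linarith

/-- `vP` is small and has a small Lipschitz constant. -/
lemma exp_lip (a b : ℝ) : ‖exp (a * I) - exp (b * I)‖ ≤ |a - b| := by
  have h1 := (convex_univ (𝕜 := ℝ) (E := ℝ)).norm_image_sub_le_of_norm_hasDerivWithin_le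
    (f := fun x : ℝ => exp (x * I)) (f' := fun x : ℝ => exp (x * I) * I) (C := 1) (x := b) (y := a)
    (fun x _ => by
      have h1 : HasDerivAt (fun x : ℝ => ((x : ℂ) * I)) (1 * I) x :=
        (HasDerivAt.ofReal_comp (hasDerivAt_id x)).mul_const I
      have := h1.cexp
      rw [one_mul] at this
      exact this.hasDerivWithinAt)
    (fun x _ => by
      rw [norm_mul, norm_exp_ofReal_mul_I, norm_I, one_mul]) (mem_univ _) (mem_univ _)
  simpa [Real.norm_eq_abs] using h1

lemma vP_lip (hη : ‖η‖ ≤ 1 / 100) (hζ : ‖ζ‖ ≤ 1 / 100) (a b : ℝ) :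
    |vP η ζ a - vP η ζ b| ≤ 20 * (‖η‖ + ‖ζ‖) * |a - b| := by
  set x := exp (a * I) with hx
  set y := exp (b * I) with hy
  have hxn : ‖x‖ = 1 := norm_exp_ofReal_mul_I a
  have hyn : ‖y‖ = 1 := norm_exp_ofReal_mul_I b
  have hxy : ‖x - y‖ ≤ |a - b| := exp_lip a b
  have hxy2 : ‖x ^ 2 - y ^ 2‖ ≤ 2 * |a - b| := by
    have : x ^ 2 - y ^ 2 = (x + y) * (x - y) := by ring
    rw [this, norm_mul]
    have h1 : ‖x + y‖ ≤ 2 := (norm_add_le _ _).trans (by rw [hxn, hyn]; norm_num)
    exact mul_le_mul h1 hxy (norm_nonneg _) (by norm_num)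
  have hηn := norm_nonneg η
  have hζn := norm_nonneg ζ
  have hab := abs_nonneg (a - b)
  have hPx : 4 / 5 ≤ PP η ζ x := PP_lower hη hζ (by rw [hxn]; norm_num)
  have hPy : 4 / 5 ≤ PP η ζ y := PP_lower hη hζ (by rw [hyn]; norm_num)
  have hPy2 : |PP η ζ y| ≤ 6 / 5 := by
    have h1 := PP_bound hη hζ y
    rw [hyn] at h1
    have h2 := abs_le.1 h1
    unfold PP
    rw [abs_le]
    constructor <;> linarith
  have hN : |(η * x + 2 * (ζ * x ^ 2)).im - (η * y + 2 * (ζ * y ^ 2)).im| ≤
      4 * (‖η‖ + ‖ζ‖) * |a - b| := by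
    rw [← sub_im]
    refine (abs_im_le_norm _).trans ?_
    have e : η * x + 2 * (ζ * x ^ 2) - (η * y + 2 * (ζ * y ^ 2)) =
        η * (x - y) + 2 * (ζ * (x ^ 2 - y ^ 2)) := by ring
    rw [e]
    refine (norm_add_le _ _).trans ?_
    rw [norm_mul, norm_mul, norm_mul]
    have h1 := mul_le_mul_of_nonneg_left hxy hηn
    have h2 := mul_le_mul_of_nonneg_left hxy2 hζn
    have h3 : ‖(2 : ℂ)‖ = 2 := by norm_num
    rw [h3]
    have h4 : 0 ≤ ‖η‖ * |a - b| := by positivity
    nlinarith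
  have hD : |PP η ζ x - PP η ζ y| ≤ 2 * (‖η‖ + ‖ζ‖) * |a - b| := by
    unfold PP
    have e0 : 1 + (η * x + ζ * x ^ 2).re - (1 + (η * y + ζ * y ^ 2).re) =
        (η * (x - y) + ζ * (x ^ 2 - y ^ 2)).re := by
      rw [show η * (x - y) + ζ * (x ^ 2 - y ^ 2) = (η * x + ζ * x ^ 2) - (η * y + ζ * y ^ 2) by ring,
        sub_re]
      ring
    rw [e0]
    refine (abs_re_le_norm _).trans ((norm_add_le _ _).trans ?_)
    rw [norm_mul, norm_mul]
    have h1 := mul_le_mul_of_nonneg_left hxy hηn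
    have h2 := mul_le_mul_of_nonneg_left hxy2 hζn
    have h4 : 0 ≤ ‖η‖ * |a - b| := by positivity
    nlinarith
  have hNy : |(η * y + 2 * (ζ * y ^ 2)).im| ≤ 1 := by
    refine (abs_im_le_norm _).trans ((norm_add_le _ _).trans ?_)
    rw [norm_mul, norm_mul, norm_mul, norm_pow, hyn]
    have h3 : ‖(2 : ℂ)‖ = 2 := by norm_num
    rw [h3]
    linarith
  unfold vP
  rw [← hx, ← hy]
  set N1 := (η * x + 2 * (ζ * x ^ 2)).im
  set N2 := (η * y + 2 * (ζ * y ^ 2)).im
  set D1 := PP η ζ x
  set D2 := PP η ζ y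
  have hD1 : D1 ≠ 0 := by linarith
  have hD2 : D2 ≠ 0 := by linarith
  have e : N1 / D1 - N2 / D2 = ((N1 - N2) * D2 - N2 * (D1 - D2)) / (D1 * D2) := by
    field_simp
    ring
  rw [e, abs_div]
  have hDD : 16 / 25 ≤ |D1 * D2| := by
    rw [abs_of_pos (by nlinarith)]
    nlinarith
  rw [div_le_iff₀ (by linarith)]
  have h5 : |(N1 - N2) * D2 - N2 * (D1 - D2)| ≤ 4 * (‖η‖ + ‖ζ‖) * |a - b| * (6 / 5) +
      1 * (2 * (‖η‖ + ‖ζ‖) * |a - b|) := by
    refine (abs_sub _ _).trans ?_
    rw [abs_mul, abs_mul]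
    exact add_le_add (mul_le_mul hN hPy2 (abs_nonneg _) (by positivity))
      (mul_le_mul hNy hD (abs_nonneg _) (by norm_num))
  refine h5.trans ?_
  have h6 : 0 ≤ (‖η‖ + ‖ζ‖) * |a - b| := by positivity
  nlinarith

end Pool.Agent.H185.FD
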