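import Pool.Agent.H719R2.PIR.Fin

/-!
# Periodic leaves of prescribed period and the sum rule
-/

open Set Filter Topology Complex
open scoped ContDiff Real

namespace Pool.Agent.H185.FD

open Pool.Agent.H719R2.PIB

variable {Y : ℂ → ℝ} {v : ℝ → ℝ}

lemma S_large (h : IsCollar Y) {R : ℝ} (hR : ∀ z : ℂ, ‖z‖ ≤ R → Y z ≤ 1) {q : ℕ} (hq : 3 ≤ q)
    (hRq : 1 < R * Real.cos (π / q)) (Θ : ℝ) : π / q < Real.arctan (S Y 1 1 Θ) := by
  have hq' : (3 : ℝ) ≤ q := by exact_mod_cast hq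
  have hx0 : 0 < π / q := by positivity
  have hx1 : π / q < π / 2 := by
    apply div_lt_div_of_pos_left Real.pi_pos (by norm_num)
    linarith
  have hcos : 0 < Real.cos (π / q) := Real.cos_pos_of_mem_Ioo ⟨by linarith, hx1⟩
  have hRpos : 0 < R := by
    by_contra hcon
    push Not at hcon
    have := mul_nonpos_of_nonpos_of_nonneg hcon hcos.le
    linarith
  have hS := S_pos h one_pos le_rfl Θ
  have hYS : Y (P Θ (S Y 1 1 Θ)) = 1 := Y_Z h one_pos le_rfl Θ (σ := 1) (by norm_num)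
  have hnorm : R ≤ ‖P Θ (S Y 1 1 Θ)‖ := by
    by_contra hcon
    push Not at hcon
    have h1 : P Θ (S Y 1 1 Θ) ∈ interior {z | Y z ≤ 1} := by
      rw [mem_interior_iff_mem_nhds]
      have : Metric.ball (0 : ℂ) R ∈ 𝓝 (P Θ (S Y 1 1 Θ)) :=
        Metric.isOpen_ball.mem_nhds (by simpa using hcon)
      filter_upwards [this] with w hw
      apply hR
      have : ‖w‖ < R := by simpa using hw
      exact this.le
    have := h.lt_of_mem_interior one_pos le_rfl h1
    linarith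
  have h2 : R ^ 2 ≤ 1 + S Y 1 1 Θ ^ 2 := by
    rw [← norm_P_sq Θ]
    exact pow_le_pow_left₀ hRpos.le hnorm 2
  have h3 : Real.tan (π / q) < S Y 1 1 Θ := by
    have h4 : Real.tan (π / q) ^ 2 < S Y 1 1 Θ ^ 2 := by
      have h5 : 1 < R ^ 2 * Real.cos (π / q) ^ 2 := by
        rw [← mul_pow]
        nlinarith
      have h6 : Real.tan (π / q) ^ 2 = 1 / Real.cos (π / q) ^ 2 - 1 := by
        rw [Real.tan_eq_sin_div_cos, div_pow, Real.sin_sq]
        field_simp
      have h7 : 1 / Real.cos (π / q) ^ 2 < R ^ 2 := by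
        rw [div_lt_iff₀ (by positivity)]
        exact h5
      linarith
    exact lt_of_pow_lt_pow_left₀ 2 hS.le h4
  have h8 := Real.arctan_strictMono h3
  rwa [Real.arctan_tan (by linarith) hx1] at h8

/-- The leaf of period `q`. -/
theorem per_leaf (h : IsCollar Y) (hv : HV Y v) {R : ℝ} (hR : ∀ z : ℂ, ‖z‖ ≤ R → Y z ≤ 1) {q : ℕ}
    (hq : 3 ≤ q) (hRq : 1 < R * Real.cos (π / q)) :
    ∃ c, 0 < c ∧ c < 1 ∧ ∀ Θ, (F Y c)^[q] Θ = Θ + 2 * π := by
  have hq0 : 0 < q := by omega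
  have hqpos : (0 : ℝ) < q := by exact_mod_cast hq0
  have hbig : 2 * π < (F Y 1)^[q] 0 := by
    have key : ∀ n : ℕ, (n + 1 : ℕ) * (2 * π / q) < (F Y 1)^[n + 1] 0 := by
      intro n
      induction n with
      | zero =>
        have := S_large h hR hq hRq 0
        show ((0 + 1 : ℕ) : ℝ) * (2 * π / q) < 0 + 2 * Real.arctan (S Y 1 1 0)
        have e : 2 * π / q = 2 * (π / q) := by ring
        rw [e]
        push_cast
        linarith
      | succ n ih =>
        rw [Function.iterate_succ_apply']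
        set t := (F Y 1)^[n + 1] 0
        have e1 : F Y 1 t = t + 2 * Real.arctan (S Y 1 1 t) := rfl
        have e2 := S_large h hR hq hRq t
        rw [e1]
        have e : 2 * π / q = 2 * (π / q) := by ring
        rw [e] at ih ⊢
        push_cast at ih ⊢
        linarith
    obtain ⟨m, rfl⟩ : ∃ m, q = m + 1 := ⟨q - 1, by omega⟩
    have := key m
    have e5 : ((m + 1 : ℕ) : ℝ) * (2 * π / ((m + 1 : ℕ) : ℝ)) = 2 * π := by field_simp
    rwa [e5] at this
  obtain ⟨δ, hδ, hδ1, hδS⟩ := S_small h (ε := π / q) (by positivity)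
  set c0 := min (δ / 2) (1 / 2) with hc0
  have hc0pos : 0 < c0 := lt_min (by positivity) (by norm_num)
  have hc0δ : c0 < δ := lt_of_le_of_lt (min_le_left _ _) (by linarith)
  have hc01 : c0 ≤ 1 := (min_le_right _ _).trans (by norm_num)
  have hsmall : (F Y c0)^[q] 0 ≤ 2 * π := by
    have key : ∀ n : ℕ, (F Y c0)^[n] 0 ≤ n * (2 * π / q) := by
      intro n
      induction n with
      | zero => simp
      | succ n ih =>
        rw [Function.iterate_succ_apply']
        set t := (F Y c0)^[n] 0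
        have e1 : F Y c0 t = t + 2 * Real.arctan (S Y 1 c0 t) := rfl
        have e2 := hδS c0 t hc0pos hc0δ
        have e3 : Real.arctan (S Y 1 c0 t) < S Y 1 c0 t := by
          have := Real.lt_tan (Real.arctan_pos.2 (S_pos h hc0pos hc01 t))
            (Real.arctan_lt_pi_div_two _)
          rwa [Real.tan_arctan] at this
        rw [e1]
        push_cast
        have e4 : ((n : ℝ) + 1) * (2 * π / q) = n * (2 * π / q) + 2 * (π / q) := by ring
        rw [e4]
        linarith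
    have := key q
    have e5 : (q : ℝ) * (2 * π / q) = 2 * π := by field_simp
    rwa [e5] at this
  have hcont : ContinuousOn (fun c => (F Y c)^[q] 0) (Icc c0 1) :=
    (iterate_cont h q).mono fun c hc => ⟨hc0pos.trans_le hc.1, hc.2⟩
  obtain ⟨c, hc, hcq⟩ := intermediate_value_Icc hc01 hcont
    (show 2 * π ∈ Icc ((F Y c0)^[q] 0) ((F Y 1)^[q] 0) from ⟨hsmall, hbig.le⟩)
  have hc0' : 0 < c := hc0pos.trans_le hc.1
  have hc1' : c < 1 := by
    refine lt_of_le_of_ne hc.2 ?_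
    rintro rfl
    simp only at hcq
    linarith
  refine ⟨c, hc0', hc1', fun Θ => ?_⟩
  apply (Phi_strictMono h hc0' hc1'.le).injective
  have h3 := Phi_iterate h hv hc0' hc1' q 0
  simp only at hcq
  rw [hcq, Phi_zero, zero_add] at h3
  rw [Phi_iterate h hv hc0' hc1', Phi_add h hc0' hc1'.le, h3]

lemma xx_F (h : IsCollar Y) {c : ℝ} (h0 : 0 < c) (h1 : c ≤ 1) (Θ : ℝ) :
    xx Y c (F Y c Θ) = yy Y c Θ := by
  unfold xx yy
  rw [S_F h h0 h1, inv_neg, neg_neg]

/-- The sum rule. -/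
lemma sum_rule (h : IsCollar Y) (hv : HV Y v) {c : ℝ} (h0 : 0 < c) (h1 : c ≤ 1) {q : ℕ}
    (hper : ∀ Θ, (F Y c)^[q] Θ = Θ + 2 * π) (Θ : ℝ) :
    ∑ j ∈ Finset.range q, v ((F Y c)^[j] Θ) = 0 := by
  have key : ∀ n : ℕ, xx Y c ((F Y c)^[n] Θ) =
      xx Y c Θ + ∑ j ∈ Finset.range n, v ((F Y c)^[j] Θ) := by
    intro n
    induction n with
    | zero => simp
    | succ n ih =>
      rw [Function.iterate_succ_apply', xx_F h h0 h1, hv c _ h0 h1, ih, Finset.sum_range_succ]
      ring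
  have h2 := key q
  rw [hper, xx_periodic] at h2
  linarith

lemma arctan_sub_le (a b : ℝ) : |Real.arctan a - Real.arctan b| ≤ |a - b| := by
  have h1 := (convex_univ (𝕜 := ℝ) (E := ℝ)).norm_image_sub_le_of_norm_deriv_le
    (f := Real.arctan) (C := 1) (x := b) (y := a)
    (fun x _ => Real.differentiableAt_arctan x) (fun x _ => by
      rw [Real.deriv_arctan, Real.norm_eq_abs, abs_of_nonneg (by positivity)]
      rw [div_le_one (by positivity)]
      nlinarith [sq_nonneg x]) (mem_univ _) (mem_univ _)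
  simpa [Real.norm_eq_abs] using h1

/-- The orbit on the leaf of period `q` is close to the regular polygon. -/
lemma orbit_close (h : IsCollar Y) (hv : HV Y v) {c : ℝ} (h0 : 0 < c) (h1 : c ≤ 1) {q : ℕ}
    (hq : 0 < q) (hper : ∀ Θ, (F Y c)^[q] Θ = Θ + 2 * π) {δ : ℝ} (hδ : ∀ Θ, |v Θ| ≤ δ) (Θ : ℝ)
    {j : ℕ} (hj : j ≤ q) :
    |(F Y c)^[j] Θ - (Θ + j * (2 * π / q))| ≤ 4 * q ^ 2 * δ := by
  have hδ0 : 0 ≤ δ := (abs_nonneg _).trans (hδ 0)
  have hqpos : (0 : ℝ) < q := by exact_mod_cast hq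
  -- the coordinates along the orbit
  have hy : ∀ n : ℕ, |yy Y c ((F Y c)^[n] Θ) - yy Y c Θ| ≤ n * δ := by
    intro n
    induction n with
    | zero => simp
    | succ n ih =>
      rw [Function.iterate_succ_apply', hv c (F Y c ((F Y c)^[n] Θ)) h0 h1, xx_F h h0 h1]
      have := hδ (F Y c ((F Y c)^[n] Θ))
      have e : yy Y c ((F Y c)^[n] Θ) + v (F Y c ((F Y c)^[n] Θ)) - yy Y c Θ =
        (yy Y c ((F Y c)^[n] Θ) - yy Y c Θ) + v (F Y c ((F Y c)^[n] Θ)) := by ring
      rw [e]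
      refine (abs_add_le _ _).trans ?_
      push_cast
      linarith
  obtain ⟨g, hg⟩ : ∃ g : ℝ → ℝ, ∀ t, g t = π - 2 * Real.arctan (yy Y c t) :=
    ⟨fun t => π - 2 * Real.arctan (yy Y c t), fun _ => rfl⟩
  have hFg : ∀ t, F Y c t = t + g t := by
    intro t
    have h2 := S_pos h h0 h1 t
    have h3 : Real.arctan (S Y 1 c t)⁻¹ = π / 2 - Real.arctan (S Y 1 c t) :=
      Real.arctan_inv_of_pos h2
    show t + 2 * Real.arctan (S Y 1 c t) = t + g t
    rw [hg]
    have h4 : yy Y c t = (S Y 1 c t)⁻¹ := rfl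
    rw [h4, h3]
    ring
  have hgd : ∀ n : ℕ, |g ((F Y c)^[n] Θ) - g Θ| ≤ 2 * (n * δ) := by
    intro n
    have h2 := arctan_sub_le (yy Y c ((F Y c)^[n] Θ)) (yy Y c Θ)
    have e : g ((F Y c)^[n] Θ) - g Θ =
        (-2) * (Real.arctan (yy Y c ((F Y c)^[n] Θ)) - Real.arctan (yy Y c Θ)) := by
      simp only [hg]
      ring
    rw [e, abs_mul]
    have h3 : |(-2 : ℝ)| = 2 := by norm_num
    rw [h3]
    have := hy n
    linarith
  have hsum : ∀ n : ℕ, (F Y c)^[n] Θ = Θ + ∑ i ∈ Finset.range n, g ((F Y c)^[i] Θ) := by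
    intro n
    induction n with
    | zero => simp
    | succ n ih =>
      rw [Function.iterate_succ_apply', hFg, Finset.sum_range_succ, ← add_assoc, ← ih]
  have hsum2 : ∀ n : ℕ, n ≤ q → |(F Y c)^[n] Θ - (Θ + n * g Θ)| ≤ n * (2 * (q * δ)) := by
    intro n hn
    rw [hsum n]
    have e : Θ + ∑ i ∈ Finset.range n, g ((F Y c)^[i] Θ) - (Θ + n * g Θ) =
        ∑ i ∈ Finset.range n, (g ((F Y c)^[i] Θ) - g Θ) := by
      rw [Finset.sum_sub_distrib, Finset.sum_const, Finset.card_range, nsmul_eq_mul]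
      ring
    rw [e]
    refine (Finset.abs_sum_le_sum_abs _ _).trans ?_
    have : ∑ i ∈ Finset.range n, |g ((F Y c)^[i] Θ) - g Θ| ≤
        ∑ _i ∈ Finset.range n, 2 * ((q : ℝ) * δ) := by
      apply Finset.sum_le_sum
      intro i hi
      refine (hgd i).trans ?_
      have : (i : ℝ) ≤ q := by exact_mod_cast ((Finset.mem_range.1 hi).le.trans hn)
      have := mul_le_mul_of_nonneg_right this hδ0
      linarith
    refine this.trans ?_
    rw [Finset.sum_const, Finset.card_range, nsmul_eq_mul]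
  have hq1 := hsum2 q le_rfl
  rw [hper] at hq1
  have e1 : Θ + 2 * π - (Θ + q * g Θ) = q * (2 * π / q - g Θ) := by
    field_simp
    ring
  rw [e1, abs_mul, abs_of_pos hqpos] at hq1
  have hq2 : |2 * π / q - g Θ| ≤ 2 * (q * δ) := le_of_mul_le_mul_left hq1 hqpos
  have h3 := hsum2 j hj
  have e2 : (F Y c)^[j] Θ - (Θ + j * (2 * π / q)) =
      ((F Y c)^[j] Θ - (Θ + j * g Θ)) - j * (2 * π / q - g Θ) := by ring
  rw [e2]
  refine (abs_sub _ _).trans ?_
  rw [abs_mul, abs_of_nonneg (show (0 : ℝ) ≤ (j : ℝ) from Nat.cast_nonneg j)]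
  have hjq : (j : ℝ) ≤ q := by exact_mod_cast hj
  have h4 : (j : ℝ) * |2 * π / q - g Θ| ≤ q * (2 * (q * δ)) :=
    mul_le_mul hjq hq2 (abs_nonneg _) hqpos.le
  have h5 : (j : ℝ) * (2 * (q * δ)) ≤ q * (2 * (q * δ)) :=
    mul_le_mul_of_nonneg_right hjq (by positivity)
  nlinarith

end Pool.Agent.H185.FD
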