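import Pool.Agent.H185.FD.Lim

/-!
# Comparison of two foliations: orbits of the same period through the same point
-/

open Set Filter Topology Complex
open scoped ContDiff Real

namespace Pool.Agent.H185.FD

open Pool.Agent.H719R2.PIB

lemma arctan_mul_ge (y y' : ℝ) :
    (Real.arctan y - Real.arctan y') ^ 2 ≤ (Real.arctan y - Real.arctan y') * (y - y') := by
  have h1 := arctan_sub_le y y'
  rcases le_total y y' with h | h
  · have h2 : Real.arctan y ≤ Real.arctan y' := Real.arctan_strictMono.monotone h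
    rw [abs_of_nonpos (by linarith), abs_of_nonpos (by linarith)] at h1
    nlinarith
  · have h2 : Real.arctan y' ≤ Real.arctan y := Real.arctan_strictMono.monotone h
    rw [abs_of_nonneg (by linarith), abs_of_nonneg (by linarith)] at h1
    nlinarith

lemma abel_sum (D e : ℕ → ℝ) (n : ℕ) :
    ∑ j ∈ Finset.range (n + 1), D j * (e (j + 1) - e j) =
      D n * e (n + 1) - D 0 * e 0 - ∑ j ∈ Finset.range n, e (j + 1) * (D (j + 1) - D j) := by
  induction n with
  | zero => simp; ring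
  | succ n ih =>
    rw [Finset.sum_range_succ, ih, Finset.sum_range_succ]
    ring

/-- Discrete stability. -/
lemma discrete {q : ℕ} (hq : 0 < q) {a b y y' V V' : ℕ → ℝ} {κ lam : ℝ} (hκ : 0 ≤ κ)
    (hlam0 : 0 ≤ lam) (hlam : 4 * (q : ℝ) ^ 2 * lam ≤ 1)
    (h0 : a 0 = b 0) (hqe : a q = b q)
    (ha : ∀ j, a (j + 1) = a j + (π - 2 * Real.arctan (y j)))
    (hb : ∀ j, b (j + 1) = b j + (π - 2 * Real.arctan (y' j)))
    (hy : ∀ j, y (j + 1) = y j + V (j + 1)) (hy' : ∀ j, y' (j + 1) = y' j + V' (j + 1))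
    (hV : ∀ j, |V j - V' j| ≤ κ + lam * |a j - b j|) :
    ∀ j, j ≤ q → |a j - b j| ≤ 4 * q ^ 2 * κ := by
  obtain ⟨n, rfl⟩ : ∃ n, q = n + 1 := ⟨q - 1, by omega⟩
  set Q : ℝ := ((n + 1 : ℕ) : ℝ) with hQ
  have hQpos : 0 < Q := by rw [hQ]; positivity
  set e : ℕ → ℝ := fun j => a j - b j with he
  set D : ℕ → ℝ := fun j => y j - y' j with hD
  have he0 : e 0 = 0 := by simp only [he]; linarith
  have heq : e (n + 1) = 0 := by simp only [he]; linarith
  have hstep : ∀ j, e (j + 1) - e j = -2 * (Real.arctan (y j) - Real.arctan (y' j)) := by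
    intro j
    simp only [he]
    rw [ha, hb]
    ring
  have h1 : ∀ j, (e (j + 1) - e j) ^ 2 / 2 ≤ -(D j * (e (j + 1) - e j)) := by
    intro j
    rw [hstep]
    have := arctan_mul_ge (y j) (y' j)
    simp only [hD]
    nlinarith
  have h2 := abel_sum D e n
  rw [he0, heq] at h2
  have h3 : ∀ j, D (j + 1) - D j = V (j + 1) - V' (j + 1) := by
    intro j
    simp only [hD]
    rw [hy, hy']
    ring
  simp_rw [h3] at h2
  -- the maximum
  obtain ⟨m, hm, hmax⟩ := Finset.exists_max_image (Finset.range (n + 2)) (fun j => |e j|)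
    ⟨0, by simp⟩
  have hmax' : ∀ j, j ≤ n + 1 → |e j| ≤ |e m| := fun j hj =>
    hmax j (Finset.mem_range.2 (by omega))
  have hmle : m ≤ n + 1 := by
    have := Finset.mem_range.1 hm
    omega
  set E := |e m| with hE
  have hE0 : 0 ≤ E := abs_nonneg _
  have hsumE : E ≤ ∑ j ∈ Finset.range (n + 1), |e (j + 1) - e j| := by
    have h4 : e m = ∑ j ∈ Finset.range m, (e (j + 1) - e j) := by
      rw [Finset.sum_range_sub, he0, sub_zero]
    rw [hE, h4]
    refine (Finset.abs_sum_le_sum_abs _ _).trans ?_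
    exact Finset.sum_le_sum_of_subset_of_nonneg (Finset.range_mono hmle)
      (fun _ _ _ => abs_nonneg _)
  have hsq : E ^ 2 ≤ Q * ∑ j ∈ Finset.range (n + 1), (e (j + 1) - e j) ^ 2 := by
    have h4 := sq_sum_le_card_mul_sum_sq (s := Finset.range (n + 1))
      (f := fun j => |e (j + 1) - e j|)
    rw [Finset.card_range] at h4
    simp only [sq_abs] at h4
    exact (pow_le_pow_left₀ hE0 hsumE 2).trans h4
  have hsum2 : ∑ j ∈ Finset.range (n + 1), (e (j + 1) - e j) ^ 2 ≤ 2 * (Q * (E * (κ + lam * E))) := by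
    have h4 : ∑ j ∈ Finset.range (n + 1), (e (j + 1) - e j) ^ 2 / 2 ≤
        ∑ j ∈ Finset.range (n + 1), -(D j * (e (j + 1) - e j)) :=
      Finset.sum_le_sum fun j _ => h1 j
    rw [Finset.sum_neg_distrib, h2, ← Finset.sum_div] at h4
    have h5 : ∑ j ∈ Finset.range n, e (j + 1) * (V (j + 1) - V' (j + 1)) ≤
        Q * (E * (κ + lam * E)) := by
      have h6 : ∀ j ∈ Finset.range n, e (j + 1) * (V (j + 1) - V' (j + 1)) ≤
          E * (κ + lam * E) := by
        intro j hj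
        have hj' := Finset.mem_range.1 hj
        have h7 := hmax' (j + 1) (by omega)
        have h8 := hV (j + 1)
        have h9 : |V (j + 1) - V' (j + 1)| ≤ κ + lam * E := by
          refine h8.trans ?_
          have : lam * |a (j + 1) - b (j + 1)| ≤ lam * E := mul_le_mul_of_nonneg_left h7 hlam0
          linarith
        refine (le_abs_self _).trans ?_
        rw [abs_mul]
        exact mul_le_mul h7 h9 (abs_nonneg _) hE0
      refine (Finset.sum_le_sum h6).trans ?_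
      rw [Finset.sum_const, Finset.card_range, nsmul_eq_mul]
      refine mul_le_mul_of_nonneg_right ?_ (by positivity)
      rw [hQ]
      push_cast
      linarith
    linarith
  have hfin : E ≤ 4 * Q ^ 2 * κ := by
    have h4 : E ^ 2 ≤ Q * (2 * (Q * (E * (κ + lam * E)))) :=
      hsq.trans (mul_le_mul_of_nonneg_left hsum2 hQpos.le)
    have h5 : 2 * Q ^ 2 * lam * E ^ 2 ≤ E ^ 2 / 2 := by
      have : (4 * Q ^ 2 * lam) * E ^ 2 ≤ 1 * E ^ 2 :=
        mul_le_mul_of_nonneg_right hlam (by positivity)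
      nlinarith
    have h6 : E * E ≤ E * (4 * Q ^ 2 * κ) := by nlinarith
    rcases eq_or_lt_of_le hE0 with h7 | h7
    · rw [← h7]; positivity
    · exact le_of_mul_le_mul_left h6 h7
  intro j hj
  exact (hmax' j hj).trans hfin

/-- Comparison of the orbits of two foliations and relative sum rule. -/
lemma compare {Y Y' : ℂ → ℝ} {v v' : ℝ → ℝ} (h : IsCollar Y) (hv : HV Y v) (h' : IsCollar Y')
    (hv' : HV Y' v') {c c' : ℝ} (h0 : 0 < c) (h1 : c ≤ 1) (h0' : 0 < c') (h1' : c' ≤ 1) {q : ℕ}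
    (hq : 0 < q) (hper : ∀ Θ, (F Y c)^[q] Θ = Θ + 2 * π)
    (hper' : ∀ Θ, (F Y' c')^[q] Θ = Θ + 2 * π) {κ lam : ℝ}
    (hκ : ∀ Θ, |v Θ - v' Θ| ≤ κ) (hL : ∀ x y, |v' x - v' y| ≤ lam * |x - y|)
    (hlam : 4 * (q : ℝ) ^ 2 * lam ≤ 1) (Θ : ℝ) :
    |∑ j ∈ Finset.range q, (v ((F Y c)^[j] Θ) - v' ((F Y c)^[j] Θ))| ≤ 4 * q ^ 3 * lam * κ := by
  have hκ0 : 0 ≤ κ := (abs_nonneg _).trans (hκ 0)
  have hlam0 : 0 ≤ lam := by
    have := (abs_nonneg _).trans (hL 1 0)
    simpa using this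
  have hFg : ∀ {Y : ℂ → ℝ}, IsCollar Y → ∀ {c : ℝ}, 0 < c → c ≤ 1 → ∀ t,
      F Y c t = t + (π - 2 * Real.arctan (yy Y c t)) := by
    intro Y h c h0 h1 t
    have h2 := S_pos h h0 h1 t
    have h3 : Real.arctan (S Y 1 c t)⁻¹ = π / 2 - Real.arctan (S Y 1 c t) :=
      Real.arctan_inv_of_pos h2
    have h4 : yy Y c t = (S Y 1 c t)⁻¹ := rfl
    show t + 2 * Real.arctan (S Y 1 c t) = _
    rw [h4, h3]
    ring
  have hcl := discrete (q := q) hq (a := fun j => (F Y c)^[j] Θ) (b := fun j => (F Y' c')^[j] Θ)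
    (y := fun j => yy Y c ((F Y c)^[j] Θ)) (y' := fun j => yy Y' c' ((F Y' c')^[j] Θ))
    (V := fun j => v ((F Y c)^[j] Θ)) (V' := fun j => v' ((F Y' c')^[j] Θ)) hκ0 hlam0 hlam
    rfl (by rw [hper, hper'])
    (fun j => by rw [Function.iterate_succ_apply', hFg h h0 h1])
    (fun j => by rw [Function.iterate_succ_apply', hFg h' h0' h1'])
    (fun j => by
      rw [Function.iterate_succ_apply', hv c _ h0 h1, xx_F h h0 h1])
    (fun j => by
      rw [Function.iterate_succ_apply', hv' c' _ h0' h1', xx_F h' h0' h1'])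
    (fun j => by
      have e : v ((F Y c)^[j] Θ) - v' ((F Y' c')^[j] Θ) =
        (v ((F Y c)^[j] Θ) - v' ((F Y c)^[j] Θ)) +
          (v' ((F Y c)^[j] Θ) - v' ((F Y' c')^[j] Θ)) := by ring
      rw [e]
      exact (abs_add_le _ _).trans (add_le_add (hκ _) (hL _ _)))
  have hs := sum_rule h hv h0 h1 hper Θ
  have hs' := sum_rule h' hv' h0' h1' hper' Θ
  have e : ∑ j ∈ Finset.range q, (v ((F Y c)^[j] Θ) - v' ((F Y c)^[j] Θ)) =
      ∑ j ∈ Finset.range q, (v' ((F Y' c')^[j] Θ) - v' ((F Y c)^[j] Θ)) := by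
    rw [Finset.sum_sub_distrib, Finset.sum_sub_distrib, hs, hs']
  rw [e]
  refine (Finset.abs_sum_le_sum_abs _ _).trans ?_
  have h4 : ∑ j ∈ Finset.range q, |v' ((F Y' c')^[j] Θ) - v' ((F Y c)^[j] Θ)| ≤
      ∑ _j ∈ Finset.range q, lam * (4 * q ^ 2 * κ) := by
    apply Finset.sum_le_sum
    intro j hj
    refine (hL _ _).trans (mul_le_mul_of_nonneg_left ?_ hlam0)
    rw [abs_sub_comm]
    exact hcl j (Finset.mem_range.1 hj).le
  refine h4.trans (le_of_eq ?_)
  rw [Finset.sum_const, Finset.card_range, nsmul_eq_mul]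
  ring

end Pool.Agent.H185.FD
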