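import Pool.Agent.H185.FD.Pen

/-!
# First order rigidity relative to the pencils
-/

open Set Filter Topology Complex
open scoped ContDiff Real

namespace Pool.Agent.H185.FD

open Pool.Agent.H719R2.PIB

lemma cos_three {q : ℕ} (hq : 3 ≤ q) : 1 / 2 ≤ Real.cos (π / q) := by
  rw [← Real.cos_pi_div_three]
  have hq3 : (3 : ℝ) ≤ q := by exact_mod_cast hq
  have hpi := Real.pi_pos
  apply Real.cos_le_cos_of_nonneg_of_le_pi
  · positivity
  · linarith
  · exact div_le_div_of_nonneg_left hpi.le (by norm_num) hq3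

lemma vP_periodic (η ζ : ℂ) (Θ : ℝ) : vP η ζ (Θ + 2 * π) = vP η ζ Θ := by
  unfold vP
  have : exp (((Θ + 2 * π : ℝ) : ℂ) * I) = exp (Θ * I) := by
    rw [show ((Θ + 2 * π : ℝ) : ℂ) * I = Θ * I + 2 * π * I by push_cast; ring, exp_add,
      exp_two_pi_mul_I, mul_one]
  rw [this]

section limit

variable {Y : ℕ → ℂ → ℝ} {v : ℕ → ℝ → ℝ} {w : ℝ → ℝ} {ε : ℕ → ℝ} {R : ℝ} {η ζ : ℕ → ℂ}

theorem relative_limit
    (hY : ∀ n, IsCollar (Y n)) (H : ∀ n, HasInvolutions (Y n) (v n))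
    (hR2 : 2 < R) (hR : ∀ n (z : ℂ), ‖z‖ ≤ R → Y n z ≤ 1)
    (hv0 : TendstoUniformly v (fun _ => 0) atTop)
    (hη : Tendsto η atTop (𝓝 0)) (hζ : Tendsto ζ atTop (𝓝 0)) (hε : ∀ n, 0 < ε n)
    (hw : TendstoUniformly (fun n Θ => (v n Θ - vP (η n) (ζ n) Θ) / ε n) w atTop) :
    ∃ c : ℤ → ℂ, c 0 = 0 ∧ ∀ Θ : ℝ, (w Θ : ℂ) =
      ∑ n ∈ Finset.Ioo (-((3 : ℕ) : ℤ)) ((3 : ℕ) : ℤ), c n * exp (n * Θ * I) := by
  have hη1 : ∀ᶠ n in atTop, ‖η n‖ ≤ 1 / 100 := by
    have := (tendsto_zero_iff_norm_tendsto_zero.1 hη).eventually_lt_const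
      (show (0 : ℝ) < 1 / 100 by norm_num)
    filter_upwards [this] with n hn using hn.le
  have hζ1 : ∀ᶠ n in atTop, ‖ζ n‖ ≤ 1 / 100 := by
    have := (tendsto_zero_iff_norm_tendsto_zero.1 hζ).eventually_lt_const
      (show (0 : ℝ) < 1 / 100 by norm_num)
    filter_upwards [this] with n hn using hn.le
  have hwc : Continuous w := by
    refine hw.continuous (Eventually.frequently ?_)
    filter_upwards [hη1, hζ1] with n h1 h2
    exact ((v_cont (hY n) ((H n).hv (hY n))).sub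
      (v_cont (collar_YP h1 h2) ((inv_YP h1 h2).hv (collar_YP h1 h2)))).div_const _
  have hwp : ∀ Θ, w (Θ + 2 * π) = w Θ := by
    intro Θ
    have h1 := hw.tendsto_at (Θ + 2 * π)
    have h2 := hw.tendsto_at Θ
    refine tendsto_nhds_unique h1 ?_
    refine h2.congr fun n => ?_
    rw [v_periodic ((H n).hv (hY n)), vP_periodic]
  refine trig hwc hwp (q₀ := 3) (by norm_num) fun q hq Θ => ?_
  obtain ⟨M, hM⟩ : ∃ M, ∀ x, |w x| ≤ M := by
    have hwp' : Function.Periodic w (2 * π) := hwp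
    have hcomp := hwp'.compact_of_continuous (by positivity : (2 * π : ℝ) ≠ 0) hwc
    obtain ⟨M, hM⟩ := hcomp.isBounded.exists_norm_le
    exact ⟨M, fun x => hM _ (mem_range_self x)⟩
  have hbound : ∀ᶠ n in atTop, ∀ x, |v n x - vP (η n) (ζ n) x| ≤ ε n * (M + 1) := by
    have h1 := (Metric.tendstoUniformly_iff.1 hw) 1 one_pos
    filter_upwards [h1] with n hn x
    have h2 := hn x
    rw [Real.dist_eq, abs_sub_comm] at h2
    have h3 : |(v n x - vP (η n) (ζ n) x) / ε n| ≤ M + 1 := by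
      have e : (v n x - vP (η n) (ζ n) x) / ε n =
        ((v n x - vP (η n) (ζ n) x) / ε n - w x) + w x := by ring
      rw [e]
      refine (abs_add_le _ _).trans ?_
      have := hM x
      linarith
    rw [abs_div, abs_of_pos (hε n), div_le_iff₀ (hε n)] at h3
    linarith
  have hRq : 1 < R * Real.cos (π / q) := by
    have := cos_three hq
    nlinarith
  have hRq' : 1 < (5 / 2 : ℝ) * Real.cos (π / q) := by
    have := cos_three hq
    nlinarith
  choose c hc0 hc1 hper using fun n => per_leaf (hY n) ((H n).hv (hY n)) (hR n) hq hRq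
  have horb : ∀ j : ℕ, j < q → Tendsto (fun n => (F (Y n) (c n))^[j] Θ) atTop
      (𝓝 (Θ + j * (2 * π / q))) := by
    intro j hj
    rw [Metric.tendsto_atTop']
    intro e he
    have h1 := (Metric.tendstoUniformly_iff.1 hv0) (e / (4 * (q : ℝ) ^ 2 + 1)) (by positivity)
    obtain ⟨N, hN⟩ := eventually_atTop.1 h1
    refine ⟨N, fun n hn => ?_⟩
    have h2 : ∀ x, |v n x| ≤ e / (4 * (q : ℝ) ^ 2 + 1) := by
      intro x
      have h3 := hN n hn.le x
      rw [Real.dist_eq, zero_sub, abs_neg] at h3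
      exact h3.le
    rw [Real.dist_eq]
    refine lt_of_le_of_lt (orbit_close (hY n) ((H n).hv (hY n)) (hc0 n) (hc1 n).le (by omega)
      (hper n) h2 Θ hj.le) ?_
    rw [← mul_div_assoc, div_lt_iff₀ (by positivity)]
    nlinarith
  have hsum : Tendsto (fun n => ∑ j ∈ Finset.range q,
      (v n ((F (Y n) (c n))^[j] Θ) - vP (η n) (ζ n) ((F (Y n) (c n))^[j] Θ)) / ε n) atTop
      (𝓝 (∑ j ∈ Finset.range q, w (Θ + j * (2 * π / q)))) := by
    refine tendsto_finset_sum _ fun j hj => ?_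
    exact hw.tendsto_comp hwc.continuousAt (horb j (Finset.mem_range.1 hj))
  refine tendsto_nhds_unique hsum ?_
  have hlim0 : Tendsto (fun n => 20 * (‖η n‖ + ‖ζ n‖)) atTop (𝓝 0) := by
    have h1 := (tendsto_zero_iff_norm_tendsto_zero.1 hη).add
      (tendsto_zero_iff_norm_tendsto_zero.1 hζ)
    have := h1.const_mul 20
    simpa using this
  have hlam : ∀ᶠ n in atTop, 4 * (q : ℝ) ^ 2 * (20 * (‖η n‖ + ‖ζ n‖)) ≤ 1 := by
    have h1 := hlim0.const_mul (4 * (q : ℝ) ^ 2)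
    rw [mul_zero] at h1
    filter_upwards [h1.eventually_lt_const one_pos] with n hn using hn.le
  have hbd : Tendsto (fun n => 4 * (q : ℝ) ^ 3 * (20 * (‖η n‖ + ‖ζ n‖)) * (M + 1)) atTop (𝓝 0) := by
    have := (hlim0.const_mul (4 * (q : ℝ) ^ 3)).mul_const (M + 1)
    simpa using this
  refine squeeze_zero_norm' ?_ hbd
  filter_upwards [hη1, hζ1, hlam, hbound] with n h1 h2 h3 h4
  obtain ⟨c', hc0', hc1', hper'⟩ := per_leaf (collar_YP h1 h2)
    ((inv_YP h1 h2).hv (collar_YP h1 h2)) (disc_YP h1 h2) hq hRq'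
  have h5 := compare (hY n) ((H n).hv (hY n)) (collar_YP h1 h2)
    ((inv_YP h1 h2).hv (collar_YP h1 h2)) (hc0 n) (hc1 n).le hc0' hc1'.le (by omega) (hper n)
    hper' h4 (vP_lip h1 h2) h3 Θ
  rw [← Finset.sum_div, norm_div, Real.norm_eq_abs, Real.norm_eq_abs, abs_of_pos (hε n),
    div_le_iff₀ (hε n)]
  refine h5.trans (le_of_eq ?_)
  ring

end limit

/-- The real form of the conclusion. -/
lemma real_form {w : ℝ → ℝ} {c : ℤ → ℂ} (hc : c 0 = 0) (h : ∀ Θ : ℝ, (w Θ : ℂ) =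
      ∑ n ∈ Finset.Ioo (-((3 : ℕ) : ℤ)) ((3 : ℕ) : ℤ), c n * exp (n * Θ * I)) :
    ∃ α β : ℂ, ∀ Θ : ℝ, w Θ = (α * exp (Θ * I) + β * exp (Θ * I) ^ 2).re := by
  refine ⟨c 1 + (starRingEnd ℂ) (c (-1)), c 2 + (starRingEnd ℂ) (c (-2)), fun Θ => ?_⟩
  have h1 := h Θ
  have hset : Finset.Ioo (-((3 : ℕ) : ℤ)) ((3 : ℕ) : ℤ) = {-2, -1, 0, 1, 2} := by decide
  rw [hset] at h1
  have h2 := congrArg Complex.re h1
  rw [ofReal_re] at h2
  rw [h2]
  have e2 : exp (((-2 : ℤ) : ℂ) * Θ * I) = (starRingEnd ℂ) (exp (Θ * I) ^ 2) := by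
    rw [map_pow, ← exp_conj, ← exp_nat_mul]
    congr 1
    simp
    ring
  have e1 : exp (((-1 : ℤ) : ℂ) * Θ * I) = (starRingEnd ℂ) (exp (Θ * I)) := by
    rw [← exp_conj]
    congr 1
    simp
  have e3 : exp (((2 : ℤ) : ℂ) * Θ * I) = exp (Θ * I) ^ 2 := by
    rw [← exp_nat_mul]
    congr 1
    push_cast
    ring
  have e4 : exp (((1 : ℤ) : ℂ) * Θ * I) = exp (Θ * I) := by
    congr 1
    push_cast
    ring
  rw [Finset.sum_insert (by decide), Finset.sum_insert (by decide), Finset.sum_insert (by decide),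
    Finset.sum_insert (by decide), Finset.sum_singleton, e1, e2, e3, e4, hc]
  set x := exp (Θ * I)
  simp only [add_re, mul_re, add_im, conj_re, conj_im, zero_mul, zero_re]
  ring

end Pool.Agent.H185.FD
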